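import Mathlib
import Pool.Agent.Lib.MP_ca2859_nt.Local2

/-!
# A rational centre for a disc stable under the decomposition group
-/

set_option autoImplicit false
set_option linter.unusedSectionVars false

open Polynomial WithZero IsDedekindDomain NumberField

namespace Pool.Agent.Lib.MP_ca2859_nt.SB

section nf
variable {K : Type} [Field K] [NumberField K] {L : Type} [Field L] [NumberField L] [Algebra K L]
  [IsGalois K L]

/-- powers of the conjugates of a prime -/
theorem mem_pow_of_comap (P : Ideal (𝓞 L)) (σ : L ≃ₐ[K] L) (r : ℕ) (x : 𝓞 L) :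
    x ∈ (P.comap (galRestrict (𝓞 K) K L (𝓞 L) σ)) ^ r ↔ galRestrict (𝓞 K) K L (𝓞 L) σ x ∈ P ^ r := by
  set s := galRestrict (𝓞 K) K L (𝓞 L) σ with hs
  have h2 : P.comap s = P.map (s.symm : 𝓞 L ≃ₐ[𝓞 K] 𝓞 L) := by
    ext z
    constructor
    · intro hz
      have := Ideal.mem_map_of_mem (s.symm : 𝓞 L ≃ₐ[𝓞 K] 𝓞 L) (Ideal.mem_comap.1 hz)
      rwa [AlgEquiv.symm_apply_apply] at this
    · intro hz
      rw [Ideal.mem_comap]
      rw [Ideal.mem_map_iff_of_surjective _ s.symm.surjective] at hz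
      obtain ⟨w, hw, rfl⟩ := hz
      rwa [AlgEquiv.apply_symm_apply]
  rw [h2, ← Ideal.map_pow]
  constructor
  · intro hx
    rw [Ideal.mem_map_iff_of_surjective _ s.symm.surjective] at hx
    obtain ⟨y, hy, rfl⟩ := hx
    rwa [AlgEquiv.apply_symm_apply]
  · intro hx
    have := Ideal.mem_map_of_mem (s.symm : 𝓞 L ≃ₐ[𝓞 K] 𝓞 L) hx
    rwa [AlgEquiv.symm_apply_apply] at this

theorem intVal_of_comap (w : HeightOneSpectrum (𝓞 L)) (σ : L ≃ₐ[K] L)
    (h : w.asIdeal.comap (galRestrict (𝓞 K) K L (𝓞 L) σ) = w.asIdeal) (x : 𝓞 L) :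
    w.intValuation (galRestrict (𝓞 K) K L (𝓞 L) σ x) = w.intValuation x := by
  set s := galRestrict (𝓞 K) K L (𝓞 L) σ with hs
  have key : ∀ r : ℕ, w.intValuation (s x) ≤ exp (-(r : ℤ)) ↔ w.intValuation x ≤ exp (-(r : ℤ)) := by
    intro r
    rw [w.intValuation_le_pow_iff_mem, w.intValuation_le_pow_iff_mem]
    have h1 := mem_pow_of_comap w.asIdeal σ r x
    rw [← hs] at h1
    rw [← h1, h]
  have main : ∀ y z : 𝓞 L, (∀ r : ℕ, w.intValuation y ≤ exp (-(r : ℤ)) →
      w.intValuation z ≤ exp (-(r : ℤ))) → w.intValuation z ≤ w.intValuation y := by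
    intro y z hyz
    by_cases hy : y = 0
    · have hz : z = 0 := by
        by_contra hz
        rw [w.intValuation_if_neg hz] at hyz
        have h1 := hyz ((Associates.mk w.asIdeal).count (Associates.mk (Ideal.span {z})).factors + 1)
          (by rw [hy, Valuation.map_zero]; exact zero_le)
        rw [exp_le_exp] at h1
        push_cast at h1
        linarith
      rw [hy, hz]
    · have h1 := w.intValuation_if_neg hy
      rw [h1]
      exact hyz _ (by rw [h1])
  exact le_antisymm (main x (s x) fun r hr => (key r).2 hr) (main (s x) x fun r hr => (key r).1 hr)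

/-- an automorphism fixing the place preserves the valuation -/
theorem val_of_comap (w : HeightOneSpectrum (𝓞 L)) (σ : L ≃ₐ[K] L)
    (h : w.asIdeal.comap (galRestrict (𝓞 K) K L (𝓞 L) σ) = w.asIdeal) (x : L) :
    w.valuation L (σ x) = w.valuation L x := by
  obtain ⟨y, z, hz, rfl⟩ := IsFractionRing.div_surjective (A := 𝓞 L) x
  rw [map_div₀, map_div₀, map_div₀, ← algebraMap_galRestrict_apply (𝓞 K),
    ← algebraMap_galRestrict_apply (𝓞 K), HeightOneSpectrum.valuation_of_algebraMap,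
    HeightOneSpectrum.valuation_of_algebraMap, HeightOneSpectrum.valuation_of_algebraMap,
    HeightOneSpectrum.valuation_of_algebraMap, intVal_of_comap w σ h, intVal_of_comap w σ h]

/-- the decomposition group, as the stabiliser of the valuation -/
def Dec (w : HeightOneSpectrum (𝓞 L)) : Subgroup (L ≃ₐ[K] L) where
  carrier := {σ | ∀ x, w.valuation L (σ x) = w.valuation L x}
  mul_mem' := by
    intro σ τ hσ hτ x
    rw [AlgEquiv.mul_apply, hσ, hτ]
  one_mem' := fun x => rfl
  inv_mem' := by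
    intro σ hσ x
    have h1 := hσ (σ⁻¹ x)
    rw [← AlgEquiv.mul_apply, mul_inv_cancel, AlgEquiv.one_apply] at h1
    exact h1.symm

/-- weak approximation: a number close to `1` at `w`, close to `0` at the conjugates of `w` -/
theorem exists_u (w : HeightOneSpectrum (𝓞 L)) (M : ℕ) : ∃ u : L,
    w.valuation L (u - 1) ≤ exp (-(M : ℤ)) ∧
    ∀ σ : L ≃ₐ[K] L, σ ∉ Dec (K := K) w → w.valuation L (σ u) ≤ exp (-(M : ℤ)) := by
  classical
  set P : (L ≃ₐ[K] L) → Ideal (𝓞 L) := fun σ => w.asIdeal.comap (galRestrict (𝓞 K) K L (𝓞 L) σ)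
    with hP
  set s : Finset (Ideal (𝓞 L)) := Finset.univ.image P with hs
  have hP1 : P 1 = w.asIdeal := by
    rw [hP]
    simp only [map_one]
    ext x
    rw [Ideal.mem_comap, AlgEquiv.one_apply]
  have hprime : ∀ I ∈ s, Prime I := by
    intro I hI
    rw [hs, Finset.mem_image] at hI
    obtain ⟨σ, -, rfl⟩ := hI
    have := w.isPrime
    refine Ideal.prime_of_isPrime ?_ (Ideal.IsPrime.comap _)
    intro h0
    apply w.ne_bot
    rw [eq_bot_iff]
    intro x hx
    obtain ⟨y, rfl⟩ := (galRestrict (𝓞 K) K L (𝓞 L) σ).surjective x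
    have hy : y ∈ P σ := Ideal.mem_comap.2 hx
    rw [h0, Ideal.mem_bot] at hy
    rw [hy, map_zero]
    exact Submodule.zero_mem _
  obtain ⟨u, hu⟩ := IsDedekindDomain.exists_forall_sub_mem_ideal (s := s) (fun I => I) (fun _ => M)
    hprime (fun I _ J _ h => h) (fun I => if I.1 = w.asIdeal then 1 else 0)
  refine ⟨algebraMap (𝓞 L) L u, ?_, ?_⟩
  · have h1 := hu w.asIdeal (by rw [hs, Finset.mem_image]; exact ⟨1, Finset.mem_univ _, hP1⟩)
    simp only [if_true] at h1
    rw [← map_one (algebraMap (𝓞 L) L), ← map_sub, HeightOneSpectrum.valuation_of_algebraMap,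
      w.intValuation_le_pow_iff_mem]
    exact h1
  · intro σ hσ
    have hne : P σ ≠ w.asIdeal := fun h => hσ fun x => val_of_comap w σ h x
    have h1 := hu (P σ) (by rw [hs, Finset.mem_image]; exact ⟨σ, Finset.mem_univ _, rfl⟩)
    simp only [if_neg hne, sub_zero] at h1
    rw [← algebraMap_galRestrict_apply (𝓞 K), HeightOneSpectrum.valuation_of_algebraMap,
      w.intValuation_le_pow_iff_mem]
    exact (mem_pow_of_comap w.asIdeal σ M u).1 h1

/-- a disc which is stable under the decomposition group has an almost rational centre -/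
theorem exists_center (w : HeightOneSpectrum (𝓞 L)) (α : L) (ρ : ℤᵐ⁰) (hρ : ρ ≠ 0)
    (hstab : ∀ σ : L ≃ₐ[K] L, σ ∈ Dec (K := K) w → w.valuation L (σ α - α) ≤ ρ) :
    ∃ (b : K) (d : ℕ), d ∣ Nat.card (L ≃ₐ[K] L) ∧ d ≠ 0 ∧
      w.valuation L (algebraMap K L b - α) * w.valuation L (d : L) ≤ ρ := by
  classical
  obtain ⟨M, hM⟩ : ∃ M : ℕ, ∀ σ : L ≃ₐ[K] L, exp (-(M : ℤ)) * w.valuation L (σ α) ≤ ρ := by
    refine ⟨∑ σ : L ≃ₐ[K] L, (log (w.valuation L (σ α)) - log ρ).natAbs, fun σ => ?_⟩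
    rcases eq_or_ne (w.valuation L (σ α)) 0 with h0 | h0
    · rw [h0, mul_zero]; exact zero_le
    · have h1 : (log (w.valuation L (σ α)) - log ρ).natAbs ≤
          ∑ σ : L ≃ₐ[K] L, (log (w.valuation L (σ α)) - log ρ).natAbs :=
        Finset.single_le_sum (f := fun σ : L ≃ₐ[K] L => (log (w.valuation L (σ α)) - log ρ).natAbs)
          (fun _ _ => Nat.zero_le _) (Finset.mem_univ σ)
      set M := ∑ σ : L ≃ₐ[K] L, (log (w.valuation L (σ α)) - log ρ).natAbs
      rw [← exp_log h0, ← exp_log hρ, ← exp_add, exp_le_exp]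
      omega
  obtain ⟨u, hu1, hu2⟩ := exists_u (K := K) w M
  set D := Dec (K := K) w with hD
  set d := (Finset.univ.filter fun σ : L ≃ₐ[K] L => σ ∈ D).card with hd
  have hdcard : d = Nat.card D := by
    rw [hd, Nat.card_eq_fintype_card, Fintype.card_subtype]
  have hd0 : d ≠ 0 := by
    rw [hd]
    exact Finset.card_ne_zero_of_mem (Finset.mem_filter.2 ⟨Finset.mem_univ 1, D.one_mem⟩)
  have hdL : (d : L) ≠ 0 := by exact_mod_cast hd0
  have hdK : (d : K) ≠ 0 := by exact_mod_cast hd0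
  refine ⟨Algebra.trace K L (u * α) / d, d, ?_, hd0, ?_⟩
  · rw [hdcard]
    exact D.card_subgroup_dvd_card
  · rw [← map_mul]
    have h1 : (algebraMap K L (Algebra.trace K L (u * α) / d) - α) * d =
        ∑ σ : L ≃ₐ[K] L, (σ (u * α) - if σ ∈ D then α else 0) := by
      rw [map_div₀, map_natCast, sub_mul, div_mul_cancel₀ _ hdL, trace_eq_sum_automorphisms,
        Finset.sum_sub_distrib, ← Finset.sum_filter, Finset.sum_const, ← hd, nsmul_eq_mul]
      ring
    rw [h1]
    apply Valuation.map_sum_le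
    intro σ _
    by_cases hσ : σ ∈ D
    · rw [if_pos hσ]
      have h2 : σ (u * α) - α = σ (u - 1) * σ α + (σ α - α) := by
        rw [map_mul, map_sub, map_one]; ring
      rw [h2]
      refine Valuation.map_add_le _ ?_ (hstab σ hσ)
      rw [map_mul, hσ (u - 1)]
      exact (mul_le_mul' hu1 le_rfl).trans (hM σ)
    · rw [if_neg hσ, sub_zero, map_mul, map_mul]
      exact (mul_le_mul' (hu2 σ hσ) le_rfl).trans (hM σ)

end nf

end Pool.Agent.Lib.MP_ca2859_nt.SB
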