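import Mathlib
import Pool.Agent.Lib.MP_ca2859_nt.Defs

/-!
# The potential of the branch points on the tree of discs
-/

set_option autoImplicit false

open WithZero

namespace Pool.Agent.Lib.MP_ca2859_nt.SB

section pot
variable {F : Type*} [Field F] (w : Valuation F ℤᵐ⁰) {n : ℕ} (α : Fin n → F)

/-- the product of the numbers `max r |α_j - a|` -/
noncomputable def MX (a : F) (r : ℤᵐ⁰) : ℤᵐ⁰ := ∏ j, max r (w (α j - a))

open Classical in
/-- the number of roots in the closed disc of centre `a` and radius `r` -/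
noncomputable def cntD (a : F) (r : ℤᵐ⁰) : ℕ :=
  (Finset.univ.filter fun j => w (α j - a) ≤ r).card

/-- the disc of centre `α i0` and radius `|α j0 - α i0|` is a least disc containing more than half
of the roots -/
def IsMin (i0 j0 : Fin n) : Prop :=
  n < 2 * cntD w α (α i0) (w (α j0 - α i0)) ∧
  ∀ i j, n < 2 * cntD w α (α i) (w (α j - α i)) → w (α j0 - α i0) ≤ w (α j - α i)

theorem exists_isMin (hn : 1 ≤ n) : ∃ i0 j0, IsMin w α i0 j0 := by
  classical
  have hne : (Finset.univ.filter fun p : Fin n × Fin n =>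
      n < 2 * cntD w α (α p.1) (w (α p.2 - α p.1))).Nonempty := by
    have i : Fin n := ⟨0, by omega⟩
    obtain ⟨j, -, hj⟩ := Finset.exists_max_image (Finset.univ : Finset (Fin n))
      (fun j => w (α j - α i)) ⟨i, Finset.mem_univ _⟩
    refine ⟨(i, j), ?_⟩
    rw [Finset.mem_filter]
    refine ⟨Finset.mem_univ _, ?_⟩
    have h1 : cntD w α (α i) (w (α j - α i)) = n := by
      unfold cntD
      rw [Finset.filter_true_of_mem fun k hk => hj k hk, Finset.card_univ, Fintype.card_fin]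
    show n < 2 * cntD w α (α i) (w (α j - α i))
    rw [h1]; omega
  obtain ⟨p, hp, hmin⟩ := Finset.exists_min_image _ (fun p : Fin n × Fin n => w (α p.2 - α p.1)) hne
  refine ⟨p.1, p.2, (Finset.mem_filter.1 hp).2, fun i j hij => ?_⟩
  exact hmin (i, j) (Finset.mem_filter.2 ⟨Finset.mem_univ _, hij⟩)

variable {w α}

theorem IsMin.ne_zero {i0 j0 : Fin n} (h : IsMin w α i0 j0) (hn : 2 ≤ n)
    (hα : Function.Injective α) : w (α j0 - α i0) ≠ 0 := by
  classical
  intro h0
  have h1 := h.1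
  rw [h0] at h1
  have h2 : cntD w α (α i0) 0 ≤ 1 := by
    unfold cntD
    rw [Finset.card_le_one]
    intro x hx y hy
    have hx' := (Finset.mem_filter.1 hx).2
    have hy' := (Finset.mem_filter.1 hy).2
    rw [le_zero_iff, map_eq_zero, sub_eq_zero] at hx' hy'
    exact hα (hx'.trans hy'.symm)
  omega

theorem IsMin.exists_common {i0 j0 : Fin n} (h : IsMin w α i0 j0) {p : Fin n → Prop}
    [DecidablePred p] (hp : n ≤ 2 * (Finset.univ.filter p).card) :
    ∃ k, p k ∧ w (α k - α i0) ≤ w (α j0 - α i0) := by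
  classical
  by_contra hcon
  push Not at hcon
  have h1 := h.1
  unfold cntD at h1
  have hdisj : Disjoint (Finset.univ.filter p)
      (Finset.univ.filter fun j => w (α j - α i0) ≤ w (α j0 - α i0)) := by
    rw [Finset.disjoint_left]
    intro k hk hk'
    exact absurd (Finset.mem_filter.1 hk').2 (not_le_of_gt (hcon k (Finset.mem_filter.1 hk).2))
  have h2 := Finset.card_union_of_disjoint hdisj
  have h3 : ((Finset.univ.filter p) ∪
      (Finset.univ.filter fun j => w (α j - α i0) ≤ w (α j0 - α i0))).card ≤ n := by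
    calc _ ≤ (Finset.univ : Finset (Fin n)).card := Finset.card_le_card (Finset.subset_univ _)
      _ = n := by rw [Finset.card_univ, Fintype.card_fin]
  omega

theorem MX_ne_zero (a : F) {r : ℤᵐ⁰} (hr : r ≠ 0) : MX w α a r ≠ 0 := by
  unfold MX
  rw [Finset.prod_ne_zero_iff]
  intro j _
  exact (lt_of_lt_of_le (zero_lt_iff.2 hr) (le_max_left _ _)).ne'

theorem MX_congr {a b : F} {r : ℤᵐ⁰} (h : w (a - b) ≤ r) : MX w α a r = MX w α b r := by
  unfold MX
  apply Finset.prod_congr rfl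
  intro j _
  apply le_antisymm
  · refine max_le (le_max_left _ _) ?_
    have h1 : α j - a = (α j - b) - (a - b) := by ring
    rw [h1]
    refine (Valuation.map_sub _ _ _).trans (max_le (le_max_right _ _) (h.trans (le_max_left _ _)))
  · refine max_le (le_max_left _ _) ?_
    have h1 : α j - b = (α j - a) + (a - b) := by ring
    rw [h1]
    refine (Valuation.map_add _ _ _).trans (max_le (le_max_right _ _) (h.trans (le_max_left _ _)))

theorem MX_mono (a : F) {r r' : ℤᵐ⁰} (h : r ≤ r') : MX w α a r ≤ MX w α a r' := by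
  unfold MX
  exact Finset.prod_le_prod' fun j _ => max_le_max h le_rfl

theorem MX_lip (a : F) {r r' : ℤᵐ⁰} (h : r ≤ r') :
    MX w α a r' * r ^ n ≤ MX w α a r * r' ^ n := by
  have h1 : ∀ t : ℤᵐ⁰, t ^ n = ∏ _j : Fin n, t := by
    intro t; rw [Finset.prod_const, Finset.card_univ, Fintype.card_fin]
  unfold MX
  rw [h1, h1, ← Finset.prod_mul_distrib, ← Finset.prod_mul_distrib]
  apply Finset.prod_le_prod' fun j _ => ?_
  rcases le_total r' (w (α j - a)) with h2 | h2
  · rw [max_eq_right h2, max_eq_right (h.trans h2)]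
    exact mul_le_mul' le_rfl h
  · rw [max_eq_left h2, mul_comm]
    exact mul_le_mul' (le_max_left _ _) le_rfl

theorem pow_aux1 {x y : ℤᵐ⁰} (h : x ≤ y) (m c : ℕ) (hc : m ≤ 2 * c) :
    x ^ (2 * c) * y ^ m ≤ y ^ (2 * c) * x ^ m := by
  obtain ⟨k, hk⟩ := Nat.exists_eq_add_of_le hc
  rw [hk, pow_add, pow_add]
  calc x ^ m * x ^ k * y ^ m = y ^ m * x ^ k * x ^ m := by
        rw [mul_right_comm, mul_comm (x ^ m), mul_right_comm]
    _ ≤ y ^ m * y ^ k * x ^ m :=
        mul_le_mul' (mul_le_mul' le_rfl (pow_le_pow_left₀ zero_le h _)) le_rfl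

theorem pow_aux2 {x y : ℤᵐ⁰} (h : x ≤ y) (m c : ℕ) (hc : 2 * c ≤ m) :
    y ^ (2 * c) * x ^ m ≤ x ^ (2 * c) * y ^ m := by
  obtain ⟨k, hk⟩ := Nat.exists_eq_add_of_le hc
  rw [hk, pow_add, pow_add]
  calc y ^ (2 * c) * (x ^ (2 * c) * x ^ k) = x ^ (2 * c) * (y ^ (2 * c) * x ^ k) :=
        mul_left_comm _ _ _
    _ ≤ x ^ (2 * c) * (y ^ (2 * c) * y ^ k) :=
        mul_le_mul' le_rfl (mul_le_mul' le_rfl (pow_le_pow_left₀ zero_le h _))

/-- going up from the least disc -/
theorem up_step {i0 j0 : Fin n} (h : IsMin w α i0 j0) {R : ℤᵐ⁰}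
    (hR : w (α j0 - α i0) ≤ R) (hρ : w (α j0 - α i0) ≠ 0) :
    MX w α (α i0) (w (α j0 - α i0)) ^ 2 * R ^ n ≤ MX w α (α i0) R ^ 2 * w (α j0 - α i0) ^ n := by
  classical
  set ρ := w (α j0 - α i0) with hρdef
  set S := Finset.univ.filter fun j => w (α j - α i0) ≤ ρ with hS
  have hcard : n < 2 * S.card := h.1
  have hR0 : R ≠ 0 := (lt_of_lt_of_le (zero_lt_iff.2 hρ) hR).ne'
  have hcardc : S.card + Sᶜ.card = n := by
    rw [Finset.card_add_card_compl, Fintype.card_fin]
  have h1 : ∀ t : ℤᵐ⁰, t ^ n = t ^ S.card * t ^ Sᶜ.card := by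
    intro t; rw [← pow_add, hcardc]
  have h2 : ∀ r : ℤᵐ⁰, MX w α (α i0) r ^ 2 =
      (∏ j ∈ S, max r (w (α j - α i0)) ^ 2) * ∏ j ∈ Sᶜ, max r (w (α j - α i0)) ^ 2 := by
    intro r
    rw [MX, ← Finset.prod_mul_prod_compl S, mul_pow, Finset.prod_pow, Finset.prod_pow]
  have h3 : ∏ j ∈ S, max ρ (w (α j - α i0)) ^ 2 = ρ ^ (2 * S.card) := by
    rw [Finset.prod_congr rfl fun j hj => by rw [max_eq_left (Finset.mem_filter.1 hj).2],
      Finset.prod_const, ← pow_mul]
  have h4 : ∏ j ∈ S, max R (w (α j - α i0)) ^ 2 = R ^ (2 * S.card) := by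
    rw [Finset.prod_congr rfl fun j hj => by
      rw [max_eq_left ((Finset.mem_filter.1 hj).2.trans hR)], Finset.prod_const, ← pow_mul]
  have h5 : ∏ j ∈ Sᶜ, max ρ (w (α j - α i0)) ^ 2 ≤ ∏ j ∈ Sᶜ, max R (w (α j - α i0)) ^ 2 :=
    Finset.prod_le_prod' fun j _ => pow_le_pow_left₀ zero_le (max_le_max hR le_rfl) 2
  rw [h2, h2, h3, h4]
  have h6 : ρ ^ (2 * S.card) * R ^ n ≤ R ^ (2 * S.card) * ρ ^ n := pow_aux1 hR n _ hcard.le
  calc ρ ^ (2 * S.card) * (∏ j ∈ Sᶜ, max ρ (w (α j - α i0)) ^ 2) * R ^ n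
      = (ρ ^ (2 * S.card) * R ^ n) * ∏ j ∈ Sᶜ, max ρ (w (α j - α i0)) ^ 2 := mul_right_comm _ _ _
    _ ≤ (R ^ (2 * S.card) * ρ ^ n) * ∏ j ∈ Sᶜ, max R (w (α j - α i0)) ^ 2 := mul_le_mul' h6 h5
    _ = _ := mul_right_comm _ _ _

/-- going down in a direction which contains at most half of the roots -/
theorem down_step (a : F) {r R : ℤᵐ⁰} (hr : r ≤ R)
    (hcard : 2 * (Finset.univ.filter fun j => w (α j - a) < R).card ≤ n) :
    MX w α a R ^ 2 * r ^ n ≤ MX w α a r ^ 2 * R ^ n := by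
  classical
  set S := Finset.univ.filter fun j => w (α j - a) < R with hS
  have hcardc : S.card + Sᶜ.card = n := by
    rw [Finset.card_add_card_compl, Fintype.card_fin]
  have h2 : ∀ r : ℤᵐ⁰, MX w α a r ^ 2 =
      (∏ j ∈ S, max r (w (α j - a)) ^ 2) * ∏ j ∈ Sᶜ, max r (w (α j - a)) ^ 2 := by
    intro r
    rw [MX, ← Finset.prod_mul_prod_compl S, mul_pow, Finset.prod_pow, Finset.prod_pow]
  have hc : ∀ j ∈ Sᶜ, R ≤ w (α j - a) := by
    intro j hj
    rw [Finset.mem_compl, hS, Finset.mem_filter, not_and] at hj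
    exact not_lt.1 (hj (Finset.mem_univ _))
  have h3 : ∏ j ∈ Sᶜ, max r (w (α j - a)) ^ 2 = ∏ j ∈ Sᶜ, max R (w (α j - a)) ^ 2 := by
    apply Finset.prod_congr rfl
    intro j hj
    rw [max_eq_right (hc j hj), max_eq_right (hr.trans (hc j hj))]
  have h4 : ∏ j ∈ S, max R (w (α j - a)) ^ 2 = R ^ (2 * S.card) := by
    rw [Finset.prod_congr rfl fun j hj => by
      rw [max_eq_left (Finset.mem_filter.1 hj).2.le], Finset.prod_const, ← pow_mul]
  have h5 : r ^ (2 * S.card) ≤ ∏ j ∈ S, max r (w (α j - a)) ^ 2 := by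
    rw [pow_mul, ← Finset.prod_const]
    exact Finset.prod_le_prod' fun j _ => pow_le_pow_left₀ zero_le (le_max_left _ _) 2
  rw [h2, h2, h3, h4]
  have h6 : R ^ (2 * S.card) * r ^ n ≤ r ^ (2 * S.card) * R ^ n := pow_aux2 hr n _ hcard
  calc R ^ (2 * S.card) * (∏ j ∈ Sᶜ, max R (w (α j - a)) ^ 2) * r ^ n
      = (R ^ (2 * S.card) * r ^ n) * ∏ j ∈ Sᶜ, max R (w (α j - a)) ^ 2 := mul_right_comm _ _ _
    _ ≤ (r ^ (2 * S.card) * R ^ n) * ∏ j ∈ Sᶜ, max R (w (α j - a)) ^ 2 := mul_le_mul' h6 le_rfl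
    _ = (r ^ (2 * S.card) * ∏ j ∈ Sᶜ, max R (w (α j - a)) ^ 2) * R ^ n := mul_right_comm _ _ _
    _ ≤ _ := mul_le_mul' (mul_le_mul' h5 le_rfl) le_rfl

/-- the least disc containing more than half of the roots minimises the potential -/
theorem MX_min {i0 j0 : Fin n} (h : IsMin w α i0 j0) (hn : 2 ≤ n) (hα : Function.Injective α)
    (a : F) (r : ℤᵐ⁰) :
    MX w α (α i0) (w (α j0 - α i0)) ^ 2 * r ^ n ≤ MX w α a r ^ 2 * w (α j0 - α i0) ^ n := by
  classical
  have hρ := h.ne_zero hn hα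
  set ρ := w (α j0 - α i0) with hρdef
  set R := max (max r ρ) (w (a - α i0)) with hR
  have hρR : ρ ≤ R := (le_max_right _ _).trans (le_max_left _ _)
  have hrR : r ≤ R := (le_max_left _ _).trans (le_max_left _ _)
  have haR : w (a - α i0) ≤ R := le_max_right _ _
  have hR0 : R ≠ 0 := (lt_of_lt_of_le (zero_lt_iff.2 hρ) hρR).ne'
  have h1 := up_step h hρR hρ
  rw [← MX_congr haR] at h1
  have h2 : MX w α a R ^ 2 * r ^ n ≤ MX w α a r ^ 2 * R ^ n := by
    rcases eq_or_lt_of_le hrR with he | hlt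
    · rw [← he]
    · apply down_step a hrR
      by_contra hcon
      push Not at hcon
      obtain ⟨k, hk1, hk2⟩ := h.exists_common (p := fun j => w (α j - a) < R) (by omega)
      -- the disc spanned by more than half of the roots near `a`
      set S := Finset.univ.filter fun j => w (α j - a) < R with hS
      have hkS : k ∈ S := Finset.mem_filter.2 ⟨Finset.mem_univ _, hk1⟩
      obtain ⟨j, hj, hjmax⟩ := Finset.exists_max_image S (fun j => w (α j - α k)) ⟨k, hkS⟩
      have hjR : w (α j - α k) < R := by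
        have e1 : α j - α k = (α j - a) - (α k - a) := by ring
        rw [e1]
        exact Valuation.map_sub_lt _ (Finset.mem_filter.1 hj).2 hk1
      have hcnt : n < 2 * cntD w α (α k) (w (α j - α k)) := by
        refine lt_of_lt_of_le hcon ?_
        refine Nat.mul_le_mul_left 2 ?_
        unfold cntD
        apply Finset.card_le_card
        intro x hx
        exact Finset.mem_filter.2 ⟨Finset.mem_univ _, hjmax x hx⟩
      have hρlt : ρ < R := lt_of_le_of_lt (h.2 k j hcnt) hjR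
      have h3 : w (a - α i0) < R := by
        have e1 : a - α i0 = (α k - α i0) - (α k - a) := by ring
        rw [e1]
        exact Valuation.map_sub_lt _ (lt_of_le_of_lt hk2 hρlt) hk1
      exact absurd hR (ne_of_gt (max_lt (max_lt hlt hρlt) h3))
  have hRn : 0 < R ^ n := pow_pos (zero_lt_iff.2 hR0) n
  rw [← mul_le_mul_iff_left₀ hRn]
  calc MX w α (α i0) ρ ^ 2 * r ^ n * R ^ n = MX w α (α i0) ρ ^ 2 * R ^ n * r ^ n := mul_right_comm _ _ _
    _ ≤ MX w α a R ^ 2 * ρ ^ n * r ^ n := mul_le_mul' h1 le_rfl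
    _ = MX w α a R ^ 2 * r ^ n * ρ ^ n := mul_right_comm _ _ _
    _ ≤ MX w α a r ^ 2 * R ^ n * ρ ^ n := mul_le_mul' h2 le_rfl
    _ = _ := mul_right_comm _ _ _

end pot

end Pool.Agent.Lib.MP_ca2859_nt.SB
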