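import Mathlib
import Pool.Agent.Lib.MP_ca2859_nt.CRGood2
import Pool.Agent.Lib.MP_ca2859_nt.Global
import Pool.Agent.Lib.MP_ca2859_nt.SB.Pot

/-!
# Discriminants of affine models in terms of the potential
-/

set_option autoImplicit false

open Polynomial WithZero IsDedekindDomain NumberField

namespace Pool.Agent.Lib.MP_ca2859_nt.SB

section one
variable {L : Type*} [Field L] {w : Valuation L ℤᵐ⁰}

theorem ord_prod {ι : Type*} (s : Finset ι) (x : ι → L) (h : ∀ i ∈ s, x i ≠ 0) :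
    ord w (∏ i ∈ s, x i) = ∑ i ∈ s, ord w (x i) := by
  classical
  induction s using Finset.induction_on with
  | empty => simp [ord]
  | insert i s hi ih =>
    rw [Finset.prod_insert hi, Finset.sum_insert hi,
      ord_mul (h i (Finset.mem_insert_self _ _))
        (Finset.prod_ne_zero_iff.2 fun j hj => h j (Finset.mem_insert_of_mem hj)),
      ih fun j hj => h j (Finset.mem_insert_of_mem hj)]

/-- the sum of the valuations of the differences of the roots -/
noncomputable def SD (w : Valuation L ℤᵐ⁰) {n : ℕ} (α : Fin n → L) : ℤ :=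
  ∑ i, ∑ j ∈ Finset.univ.erase i, ord w (α i - α j)

theorem ord_disc_split {n : ℕ} (hn : 1 ≤ n) (b : L) (hb : b ≠ 0) (α : Fin n → L)
    (hα : Function.Injective α) (α₀ ρ : L) (hρ : ρ ≠ 0) :
    (C b * ∏ j, (X - C ((α j - α₀) / ρ))).discr ≠ 0 ∧
    ord w (C b * ∏ j, (X - C ((α j - α₀) / ρ))).discr =
      2 * (n - 1) * ord w b + SD w α - n * (n - 1) * ord w ρ := by
  classical
  obtain ⟨ε, hε⟩ := discr_split hn b hb (fun j => (α j - α₀) / ρ)
  have hdiff : ∀ i j, (α i - α₀) / ρ - (α j - α₀) / ρ = (α i - α j) / ρ := by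
    intro i j; rw [← sub_div]; ring
  have hne : ∀ i j, i ≠ j → α i - α j ≠ 0 := fun i j hij h => hij (hα (sub_eq_zero.1 h))
  have hP0 : ∏ i, ∏ j ∈ Finset.univ.erase i, ((α i - α₀) / ρ - (α j - α₀) / ρ) ≠ 0 := by
    rw [Finset.prod_ne_zero_iff]
    intro i _
    rw [Finset.prod_ne_zero_iff]
    intro j hj
    rw [hdiff]
    exact div_ne_zero (hne i j (Finset.ne_of_mem_erase hj).symm) hρ
  refine ⟨?_, ?_⟩
  · rw [hε]
    exact mul_ne_zero (unit_ne_zero ε) (mul_ne_zero (pow_ne_zero _ hb) hP0)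
  · rw [hε, ord_unit, ord_mul (pow_ne_zero _ hb) hP0, ord_pow]
    have h1 : ord w (∏ i, ∏ j ∈ Finset.univ.erase i, ((α i - α₀) / ρ - (α j - α₀) / ρ)) =
        SD w α - n * (n - 1) * ord w ρ := by
      rw [ord_prod]
      · have h2 : ∀ i : Fin n, ord w (∏ j ∈ Finset.univ.erase i, ((α i - α₀) / ρ - (α j - α₀) / ρ)) =
            (∑ j ∈ Finset.univ.erase i, ord w (α i - α j)) - ((n : ℤ) - 1) * ord w ρ := by
          intro i
          rw [ord_prod]
          · have h3 : ∀ j ∈ Finset.univ.erase i, ord w ((α i - α₀) / ρ - (α j - α₀) / ρ) =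
                ord w (α i - α j) - ord w ρ := by
              intro j hj
              rw [hdiff, ord_div (hne i j (Finset.ne_of_mem_erase hj).symm) hρ]
            rw [Finset.sum_congr rfl h3, Finset.sum_sub_distrib, Finset.sum_const,
              Finset.card_erase_of_mem (Finset.mem_univ _), Finset.card_univ, Fintype.card_fin,
              nsmul_eq_mul, Nat.cast_sub hn]
            push_cast
            ring
          · intro j hj
            rw [hdiff]
            exact div_ne_zero (hne i j (Finset.ne_of_mem_erase hj).symm) hρ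
        rw [Finset.sum_congr rfl fun i _ => h2 i, Finset.sum_sub_distrib, Finset.sum_const,
          Finset.card_univ, Fintype.card_fin, SD, nsmul_eq_mul]
        ring
      · intro i _
        rw [Finset.prod_ne_zero_iff]
        intro j hj
        rw [hdiff]
        exact div_ne_zero (hne i j (Finset.ne_of_mem_erase hj).symm) hρ
    rw [h1]
    have h2 : ((2 * n - 2 : ℕ) : ℤ) = 2 * ((n : ℤ) - 1) := by omega
    rw [h2]
    ring

/-- the Gauss norm of an affine model -/
theorem gauss_MX {n : ℕ} (a : L) (α : Fin n → L) (α₀ ρ : L) (hρ : ρ ≠ 0) :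
    w (a * ρ ^ n) * ∏ j, max 1 (w ((α j - α₀) / ρ)) = w a * MX w α α₀ (w ρ) := by
  have hw : w ρ ≠ 0 := (Valuation.ne_zero_iff w).2 hρ
  have h1 : w ρ ^ n = ∏ _j : Fin n, w ρ := by
    rw [Finset.prod_const, Finset.card_univ, Fintype.card_fin]
  rw [map_mul, map_pow, h1, mul_assoc, ← Finset.prod_mul_distrib, MX]
  congr 1
  apply Finset.prod_congr rfl
  intro j _
  rw [map_div₀]
  rcases le_total (w (α j - α₀)) (w ρ) with h | h
  · rw [max_eq_left h, max_eq_left (div_le_one_of_le₀ h zero_le), mul_one]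
  · rw [max_eq_right h, max_eq_right ((one_le_div₀ (zero_lt_iff.2 hw)).2 h), mul_div_cancel₀ _ hw]

/-- the coefficients of a split polynomial are bounded by the Gauss norm -/
theorem CB_split {n : ℕ} (b : L) (s : Fin n → L) :
    CB w (w b * ∏ j, max 1 (w (s j))) (C b * ∏ j, (X - C (s j))) := by
  classical
  have h1 : ∀ t : Finset (Fin n), CB w (∏ j ∈ t, max 1 (w (s j))) (∏ j ∈ t, (X - C (s j))) := by
    intro t
    induction t using Finset.induction_on with
    | empty => simpa using CB_one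
    | insert j t hj ih =>
      rw [Finset.prod_insert hj, Finset.prod_insert hj]
      exact ((CB_X.mono (le_max_left _ _)).sub (CB_C (le_max_right _ _))).mul ih
  exact (CB_C le_rfl).mul (h1 Finset.univ)

end one

section two
variable {K L : Type*} [Field K] [Field L] [Algebra K L] [CharZero K] [CharZero L]

theorem ord_discr_map (v : Valuation K ℤᵐ⁰) (w : Valuation L ℤᵐ⁰) (e : ℕ)
    (hvw : ∀ x : K, w (algebraMap K L x) = v x ^ e) (n : ℕ) (hn : 2 ≤ n) (H : K[X])
    (hH : H.natDegree = n) (h0 : (H.map (algebraMap K L)).discr ≠ 0) :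
    H.discr ≠ 0 ∧ ord w (H.map (algebraMap K L)).discr = e * ord v H.discr := by
  have hordK : ∀ x : K, ord w (algebraMap K L x) = e * ord v x := by
    intro x
    rw [ord, hvw, log_pow, ord]
    simp
  have hHd' : (H.map (algebraMap K L)).natDegree = n := by rw [natDegree_map, hH]
  obtain ⟨ε, hε⟩ := RR_eq_discr_of_natDegree_eq n hn H hH
  obtain ⟨ε', hε'⟩ := RR_eq_discr_of_natDegree_eq n hn _ hHd'
  have hn0 : ((n : ℕ) : L) ≠ 0 := by rw [Nat.cast_ne_zero]; omega
  have hn0' : ((n : ℕ) : K) ≠ 0 := by rw [Nat.cast_ne_zero]; omega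
  have hR0' : RR n (H.map (algebraMap K L)) ≠ 0 := by
    rw [hε']
    exact mul_ne_zero (unit_ne_zero ε') (mul_ne_zero (pow_ne_zero _ hn0) h0)
  have hR0 : RR n H ≠ 0 := by
    intro h1
    rw [RR_map, h1, map_zero] at hR0'
    exact hR0' rfl
  have hd0 : H.discr ≠ 0 := by
    intro h1
    apply hR0
    rw [hε, h1]; simp
  refine ⟨hd0, ?_⟩
  have h1 : ord w (RR n (H.map (algebraMap K L))) =
      ((n - 2 : ℕ) : ℤ) * ord w ((n : ℕ) : L) + ord w (H.map (algebraMap K L)).discr := by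
    rw [hε', ord_unit, ord_mul (pow_ne_zero _ hn0) h0, ord_pow]
  have h2 : ord v (RR n H) = ((n - 2 : ℕ) : ℤ) * ord v ((n : ℕ) : K) + ord v H.discr := by
    rw [hε, ord_unit, ord_mul (pow_ne_zero _ hn0') hd0, ord_pow]
  have h3 : ord w (RR n (H.map (algebraMap K L))) = e * ord v (RR n H) := by
    rw [RR_map, hordK]
  have h4 : ord w ((n : ℕ) : L) = e * ord v ((n : ℕ) : K) := by
    rw [← hordK, map_natCast]
  rw [h3, h2, h4] at h1
  linear_combination -h1

/-- the model attached to a disc with centre and radius over `K` -/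
theorem model_at (v : Valuation K ℤᵐ⁰) (w : Valuation L ℤᵐ⁰) (e : ℕ) (he : 0 < e)
    (hvw : ∀ x : K, w (algebraMap K L x) = v x ^ e) (π : K) (hπ : v π = exp (-1 : ℤ))
    (g : ℕ) (hg : 1 ≤ g) (n : ℕ) (hn : n = 2 * g + 2) (f : K[X]) (hfd : f.natDegree = n)
    (a : L) (ha : a ≠ 0) (α : Fin n → L) (hα : Function.Injective α)
    (hfα : f.map (algebraMap K L) = C a * ∏ j, (X - C (α j))) (b : K) (m : ℤ) :
    ∃ c ε s : ℤ, ε = c + 2 * s ∧ (ε = 0 ∨ ε = 1) ∧
      e * c = ord w a - log (MX w α (algebraMap K L b) (exp (-(e * m)))) ∧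
      (e : ℤ) * minDiscExp v g f ≤ e * (4 * g * ord v (2 : K)) +
        (2 * g + 1) * (2 * log (MX w α (algebraMap K L b) (exp (-(e * m)))) +
          (2 * g + 2) * (e * m) + 2 * e * ε) + SD w α := by
  classical
  have hordK : ∀ x : K, ord w (algebraMap K L x) = e * ord v x := by
    intro x
    rw [ord, hvw, log_pow, ord]
    simp
  have hπ0 : π ≠ 0 := by
    rintro rfl; rw [map_zero] at hπ; exact exp_ne_zero hπ.symm
  have hordπ : ord v π = 1 := by rw [ord, hπ, log_exp]; ring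
  have hπm0 : π ^ m ≠ 0 := zpow_ne_zero _ hπ0
  set ρ := algebraMap K L (π ^ m) with hρ
  have hρ0 : ρ ≠ 0 := by rw [hρ, Ne, map_eq_zero]; exact hπm0
  have hordρ : ord w ρ = e * m := by rw [hρ, hordK, ord_zpow, hordπ, mul_one]
  have hwρ : w ρ = exp (-(e * m)) := by rw [w_eq_exp hρ0, hordρ]
  rw [← hwρ]
  set b' := algebraMap K L b with hb'
  set f₁ := f.comp (C (π ^ m) * X + C b) with hf₁
  have hf₁s : f₁.map (algebraMap K L) = C (a * ρ ^ n) * ∏ j, (X - C ((α j - b') / ρ)) := by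
    have h1 := comp_split (1 : L) a ρ b' hρ0 α
    rw [one_mul, C_1, one_mul] at h1
    rw [← h1, hf₁, Polynomial.map_comp, hfα]
    simp [hρ, hb']
  have hb0 : a * ρ ^ n ≠ 0 := mul_ne_zero ha (pow_ne_zero _ hρ0)
  have hlin : (C (π ^ m) * X + C b : K[X]).natDegree = 1 := natDegree_linear hπm0
  have hf₁d : f₁.natDegree = n := by
    rw [hf₁, natDegree_comp, hlin, mul_one, hfd]
  have hf₁0 : f₁ ≠ 0 := by
    intro h1; rw [h1, natDegree_zero] at hf₁d; omega
  -- the content of f₁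
  obtain ⟨i₀, -, hi₀⟩ := Finset.exists_max_image (Finset.range (n + 1)) (fun i => v (f₁.coeff i))
    ⟨0, by simp⟩
  have hmax : ∀ i, v (f₁.coeff i) ≤ v (f₁.coeff i₀) := by
    intro i
    by_cases hi : i ∈ Finset.range (n + 1)
    · exact hi₀ i hi
    · rw [coeff_eq_zero_of_natDegree_lt (by rw [Finset.mem_range] at hi; omega)]
      simp
  have hci₀ : f₁.coeff i₀ ≠ 0 := by
    intro h1
    apply hf₁0
    ext i
    have h2 := hmax i
    rw [h1, map_zero, le_zero_iff, map_eq_zero] at h2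
    rw [h2, coeff_zero]
  set m₁ := ord v (f₁.coeff i₀) with hm₁
  have hcont : w (algebraMap K L (f₁.coeff i₀)) = w a * MX w α b' (w ρ) := by
    rw [← gauss_MX a α b' ρ hρ0]
    apply le_antisymm
    · have h1 := CB_split (w := w) (a * ρ ^ n) (fun j => (α j - b') / ρ) i₀
      rw [← hf₁s, coeff_map] at h1
      exact h1
    · have h1 := gauss_prod (w := w) Finset.univ (fun j => (α j - b') / ρ)
        (w (algebraMap K L (f₁.coeff i₀))) (C (a * ρ ^ n)) (by
        intro i
        rw [mul_comm, ← hf₁s, coeff_map, hvw, hvw]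
        exact pow_le_pow_left₀ zero_le (hmax i) e) 0
      rwa [coeff_C_zero] at h1
  have hMX0 : MX w α b' (w ρ) ≠ 0 := MX_ne_zero _ ((Valuation.ne_zero_iff w).2 hρ0)
  have hcont2 : (e : ℤ) * m₁ = ord w a - log (MX w α b' (w ρ)) := by
    have h1 : ord w (algebraMap K L (f₁.coeff i₀)) = e * m₁ := hordK _
    rw [← h1, ord, hcont, log_mul ((Valuation.ne_zero_iff w).2 ha) hMX0, ord]
    ring
  set s := -(m₁ / 2) with hs
  have hs1 : 2 * s + m₁ = 0 ∨ 2 * s + m₁ = 1 := by omega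
  have hs0 : 0 ≤ 2 * s + m₁ := by omega
  refine ⟨m₁, m₁ + 2 * s, s, rfl, by omega, hcont2, ?_⟩
  have hπs0 : π ^ s ≠ 0 := zpow_ne_zero _ hπ0
  set f₂ := C ((π ^ s) ^ 2) * f₁ with hf₂
  have hf₂d : f₂.natDegree = n := by
    rw [hf₂, natDegree_C_mul (pow_ne_zero _ hπs0), hf₁d]
  have hint2 : CB v 1 f₂ := by
    intro i
    rw [hf₂, coeff_C_mul]
    rcases eq_or_ne (f₁.coeff i) 0 with h1 | h1
    · simp [h1]
    · have h2 := hmax i
      rw [w_eq_exp hci₀, ← hm₁, le_exp_iff h1, neg_neg] at h2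
      rw [← exp_zero, le_exp_iff (mul_ne_zero (pow_ne_zero _ hπs0) h1),
        ord_mul (pow_ne_zero _ hπs0) h1, ord_pow, ord_zpow, hordπ]
      push_cast
      linarith
  have hf02 : f0 f₂ 0 = f₂ := f0_zero _
  have hmodel : IsWeierstrassModel v g f f₂ 0 := by
    refine ⟨hint2, fun i => by simp, by omega, by simp, ?_, ?_⟩
    · rw [hf02, hf₂d]; right; exact hn
    · rw [hf02]
      refine ⟨π ^ m, b, 0, 1, π ^ s, by simpa using hπm0, hπs0, fun x _ => ?_⟩
      simp [hf₂, hf₁, eval_comp]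
  have hf₂s : f₂.map (algebraMap K L) =
      C (algebraMap K L (π ^ s) ^ 2 * (a * ρ ^ n)) * ∏ j, (X - C ((α j - b') / ρ)) := by
    rw [hf₂, Polynomial.map_mul, hf₁s, Polynomial.map_C, map_pow, ← mul_assoc, ← C_mul]
  have hπsL : algebraMap K L (π ^ s) ^ 2 ≠ 0 := by
    apply pow_ne_zero
    rw [Ne, map_eq_zero]; exact hπs0
  have hd := ord_disc_split (w := w) (by omega : 1 ≤ n) _ (mul_ne_zero hπsL hb0) α hα b' ρ hρ0
  rw [← hf₂s] at hd
  obtain ⟨hd0, hordd⟩ := ord_discr_map v w e hvw n (by omega) f₂ hf₂d hd.1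
  have hD : eqDisc g f₂ = 2 ^ (4 * g) * f₂.discr := by
    rw [eqDisc, if_pos (by rw [hf₂d, hn])]
  have hD0 : eqDisc g f₂ ≠ 0 := by
    rw [hD]; exact mul_ne_zero (pow_ne_zero _ two_ne_zero) hd0
  have hord0 : 0 ≤ ord v (eqDisc g f₂) := ord_nonneg (eqDisc_le_one g hint2)
  obtain ⟨k', hk'⟩ := Int.eq_ofNat_of_zero_le hord0
  have hle : minDiscExp v g f ≤ k' := minDiscExp_le v g f k' ⟨f₂, 0, hmodel, by
    rw [hf02, w_eq_exp hD0, hk']⟩
  have hk2 : (e : ℤ) * k' = e * (4 * g * ord v (2 : K)) + ord w (f₂.map (algebraMap K L)).discr := by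
    rw [hordd, ← hk', hD, ord_mul (pow_ne_zero _ two_ne_zero) hd0, ord_pow]
    push_cast
    ring
  have hob : ord w (algebraMap K L (π ^ s) ^ 2 * (a * ρ ^ n)) =
      2 * (e * s) + (ord w a + n * (e * m)) := by
    rw [ord_mul hπsL hb0, ord_pow, hordK, ord_zpow, hordπ, ord_mul ha (pow_ne_zero _ hρ0), ord_pow,
      hordρ]
    push_cast
    ring
  have hle' : (e : ℤ) * minDiscExp v g f ≤ e * k' :=
    mul_le_mul_of_nonneg_left (by exact_mod_cast hle) (by positivity)
  refine hle'.trans (le_of_eq ?_)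
  rw [hk2, hd.2, hob, hordρ]
  have hncast : ((n : ℕ) : ℤ) = 2 * g + 2 := by rw [hn]; push_cast; ring
  rw [hncast]
  linear_combination (2 * (2 * (g : ℤ) + 1)) * (-hcont2)
end two

end Pool.Agent.Lib.MP_ca2859_nt.SB
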