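import Mathlib
import Pool.Agent.Lib.MP_ca2859_nt.SB.Disc
import Pool.Agent.Lib.MP_ca2859_nt.SB.Center

/-!
# The two local bounds: from below by every Weierstrass model, from above by rational discs
-/

set_option autoImplicit false
set_option linter.unusedSectionVars false

open Polynomial WithZero IsDedekindDomain NumberField

namespace Pool.Agent.Lib.MP_ca2859_nt.SB

/-- rounding and parity -/
theorem num (g e m ts φs φ1 φ2 c1 c2 ε1 ε2 s1 s2 : ℤ) (he : 0 < e)
    (hφ1 : φ1 ≤ φs + (2 * g + 2) * (-(e * m) - ts))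
    (hφ2 : φ2 ≤ φs + (2 * g + 2) * (ts + e * (m + 1)))
    (hc : 2 * (e * c2 - e * c1) = φ1 - φ2 + (2 * g + 2) * e)
    (h1 : ε1 = c1 + 2 * s1) (h2 : ε2 = c2 + 2 * s2) (h1' : ε1 = 0 ∨ ε1 = 1) (h2' : ε2 = 0 ∨ ε2 = 1) :
    φ1 + 2 * e * ε1 ≤ φs + 2 * ((g + 1) / 2 + 1) * e ∨
    φ2 + 2 * e * ε2 ≤ φs + 2 * ((g + 1) / 2 + 1) * e := by
  have hsum : φ1 + φ2 ≤ 2 * φs + (2 * g + 2) * e := by linarith
  have hK : g + 2 ≤ 2 * ((g + 1) / 2 + 1) := by omega
  have hK2 : (g + 2) * e ≤ 2 * ((g + 1) / 2 + 1) * e := mul_le_mul_of_nonneg_right hK he.le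
  have hεe1 : 2 * e * ε1 ≤ 2 * e := by rcases h1' with h | h <;> rw [h] <;> linarith
  have hεe2 : 2 * e * ε2 ≤ 2 * e := by rcases h2' with h | h <;> rw [h] <;> linarith
  rcases lt_trichotomy (c2 - c1) (g + 1) with hlt | heq | hgt
  · left
    have h3 : e * (c2 - c1) ≤ e * g := mul_le_mul_of_nonneg_left (by omega) he.le
    nlinarith
  · have h3 : e * (c2 - c1) = e * (g + 1) := by rw [heq]
    have h4 : φ1 = φ2 := by linarith
    rcases Int.even_or_odd g with hev | hodd
    · obtain ⟨r, hr⟩ := hev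
      have h5 : ε1 = 0 ∨ ε2 = 0 := by omega
      rcases h5 with h5 | h5
      · left; rw [h5]; nlinarith
      · right; rw [h5]; nlinarith
    · obtain ⟨r, hr⟩ := hodd
      have hK3 : g + 3 ≤ 2 * ((g + 1) / 2 + 1) := by omega
      have hK4 : (g + 3) * e ≤ 2 * ((g + 1) / 2 + 1) * e := mul_le_mul_of_nonneg_right hK3 he.le
      left
      nlinarith
  · right
    have h3 : e * (g + 2) ≤ e * (c2 - c1) := mul_le_mul_of_nonneg_left (by omega) he.le
    nlinarith

section nf
variable {K : Type} [Field K] [NumberField K] {L : Type} [Field L] [NumberField L] [Algebra K L]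

/-- a `v`-integral equation `y² = H` over `K` of degree `2g+2` obtained from `f` by an affine
change of coordinates, whose discriminant exceeds the minimal one by a power of two -/
theorem model_min (g : ℕ) (hg : 1 ≤ g) (f : K[X]) (hf : IsHyperelliptic g f)
    (hfd : f.natDegree = 2 * g + 2) (v : HeightOneSpectrum (𝓞 K)) :
    ∃ (c α₀ ρ : K) (H : K[X]), c ≠ 0 ∧ ρ ≠ 0 ∧ H = C c * f.comp (C ρ * X + C α₀) ∧
      CB (v.valuation K) 1 H ∧ H.discr ≠ 0 ∧ ord (v.valuation K) H.discr =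
        discExp g f v + (4 * g + 4) * ord (v.valuation K) (2 : K) := by
  obtain ⟨π, hπ⟩ := v.valuation_exists_uniformizer K
  obtain ⟨P, Q, hm, hk⟩ := minDiscExp_spec (v.valuation K) π hπ g hg f hf
  set h := f0 P Q with hh
  have hD0 : eqDisc g h ≠ 0 := by
    intro h1; rw [h1, map_zero] at hk; exact exp_ne_zero hk.symm
  have hhd : h.natDegree ≤ 2 * g + 2 := by rcases hm.deg0 with h1 | h1 <;> rw [hh] <;> omega
  have hint4 : CB (v.valuation K) 1 (C 4 * h) := by
    have h1 : C (4 : K) * h = C ((4 : ℕ) : K) * P + Q ^ 2 := by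
      rw [hh, f0, mul_add, ← mul_assoc, ← C_mul]
      norm_num
    rw [h1]
    have h2 := (CB_C (natCast_le_one (v.valuation K) 4)).mul (show CB (v.valuation K) 1 P from hm.intP)
    have h3 := CB.pow (show CB (v.valuation K) 1 Q from hm.intQ) 2
    rw [mul_one] at h2
    rw [one_pow] at h3
    exact h2.add h3
  obtain ⟨hRh0, hRh⟩ := ord_RR_eqDisc (w := v.valuation K) g hg h hm.deg0 hD0
  obtain ⟨c, α₀, ρ, H, hc, hρ, hH, hHint, ⟨ε, hε⟩, -⟩ :=
    exists_affine_sq (w := v.valuation K) g f h hhd hm.same hint4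
  have hordD : ord (v.valuation K) (eqDisc g h) = discExp g f v := by
    rw [ord, hk, log_exp]; simp [discExp]
  have hHd : H.natDegree = 2 * g + 2 := by
    rw [hH, natDegree_C_mul hc, natDegree_comp, natDegree_linear hρ, mul_one, hfd]
  obtain ⟨ε', hε'⟩ := RR_eq_discr_of_natDegree_eq (2 * g + 2) (by omega) H hHd
  have hn0 : ((2 * g + 2 : ℕ) : K) ≠ 0 := by rw [Nat.cast_ne_zero]; omega
  have h40 : (4 : K) ^ (2 * (2 * g + 2 - 1)) ≠ 0 := pow_ne_zero _ (by norm_num)
  have hRH0 : RR (2 * g + 2) H ≠ 0 := by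
    rw [hε, RR_C_mul]
    exact mul_ne_zero (unit_ne_zero ε) (mul_ne_zero h40 hRh0)
  have hdisc0 : H.discr ≠ 0 := by
    intro h1
    apply hRH0
    rw [hε', h1]; simp
  refine ⟨c, α₀, ρ, H, hc, hρ, hH, hHint, hdisc0, ?_⟩
  have h1 : ord (v.valuation K) (RR (2 * g + 2) H) =
      (4 * (2 * g + 1)) * ord (v.valuation K) (2 : K) + ord (v.valuation K) (RR (2 * g + 2) h) := by
    rw [hε, ord_unit, RR_C_mul, ord_mul h40 hRh0, ord_pow, show (4 : K) = 2 ^ 2 by norm_num,
      ord_pow, show 2 * g + 2 - 1 = 2 * g + 1 by omega]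
    push_cast
    ring
  have h2 : ord (v.valuation K) (RR (2 * g + 2) H) =
      2 * g * ord (v.valuation K) ((2 * g + 2 : ℕ) : K) + ord (v.valuation K) H.discr := by
    rw [hε', ord_unit, ord_mul (pow_ne_zero _ hn0) hdisc0, ord_pow,
      show 2 * g + 2 - 2 = 2 * g by omega]
    push_cast
    ring
  rw [hordD] at hRh
  linarith

/-- the lower bound: every Weierstrass model has at least the discriminant of the least disc -/
theorem lower (g : ℕ) (hg : 1 ≤ g) (n : ℕ) (hn : n = 2 * g + 2) (f : K[X])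
    (hf : IsHyperelliptic g f) (v : HeightOneSpectrum (𝓞 K)) (w : HeightOneSpectrum (𝓞 L))
    [w.asIdeal.LiesOver v.asIdeal] (a : L) (ha : a ≠ 0) (α : Fin n → L)
    (hα : Function.Injective α) (hfα : f.map (algebraMap K L) = C a * ∏ j, (X - C (α j)))
    (i0 j0 : Fin n) (h : IsMin (w.valuation L) α i0 j0) :
    (2 * g + 1) * (2 * log (MX (w.valuation L) α (α i0) (w.valuation L (α j0 - α i0))) -
      (2 * g + 2) * log (w.valuation L (α j0 - α i0))) + SD (w.valuation L) α ≤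
      (Ideal.ramificationIdx' v.asIdeal w.asIdeal : ℕ) *
        (discExp g f v + (4 * g + 4) * ord (v.valuation K) (2 : K)) := by
  have hfd : f.natDegree = 2 * g + 2 := by
    rw [← natDegree_map (algebraMap K L), hfα, natDegree_split _ ha, hn]
  obtain ⟨c, α₀, ρ, H, hc, hρ, hH, hHint, hdisc0, hdisc⟩ := model_min g hg f hf hfd v
  rw [← hdisc]
  set e := Ideal.ramificationIdx' v.asIdeal w.asIdeal with he
  have hvw : ∀ x : K, w.valuation L (algebraMap K L x) = v.valuation K x ^ e := fun x =>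
    (HeightOneSpectrum.valuation_liesOver L v w x).symm
  set W := w.valuation L with hW
  have hHd : H.natDegree = n := by
    rw [hH, natDegree_C_mul hc, natDegree_comp, natDegree_linear hρ, mul_one, hfd, hn]
  have hCB' : CB W 1 (H.map (algebraMap K L)) := by
    intro i
    rw [coeff_map, hvw]
    exact pow_le_one' (hHint i) _
  set ρ' := algebraMap K L ρ with hρ'
  set α' := algebraMap K L α₀ with hα'
  set c' := algebraMap K L c with hc'
  have hρ0 : ρ' ≠ 0 := by rw [hρ', Ne, map_eq_zero]; exact hρ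
  have hc0 : c' ≠ 0 := by rw [hc', Ne, map_eq_zero]; exact hc
  have hsplit : H.map (algebraMap K L) = C (c' * a * ρ' ^ n) * ∏ j, (X - C ((α j - α') / ρ')) := by
    rw [hH, Polynomial.map_mul, Polynomial.map_C, Polynomial.map_comp, hfα]
    simp only [Polynomial.map_add, Polynomial.map_mul, Polynomial.map_C, Polynomial.map_X]
    exact comp_split _ _ _ _ hρ0 _
  have hca0 : c' * a ≠ 0 := mul_ne_zero hc0 ha
  have hb0 : c' * a * ρ' ^ n ≠ 0 := mul_ne_zero hca0 (pow_ne_zero _ hρ0)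
  have hd := ord_disc_split (w := W) (by omega : 1 ≤ n) _ hb0 α hα α' ρ' hρ0
  rw [← hsplit] at hd
  obtain ⟨-, hordd⟩ := ord_discr_map (v.valuation K) W e hvw n (by omega) H hHd hd.1
  rw [← hordd, hd.2]
  have hg1 := gauss_full (w := W) _ _ (by rw [← hsplit]; exact hCB')
  rw [gauss_MX (c' * a) α α' ρ' hρ0] at hg1
  have hwρ0 : W ρ' ≠ 0 := (Valuation.ne_zero_iff W).2 hρ0
  have hMX0 : MX W α α' (W ρ') ≠ 0 := MX_ne_zero _ hwρ0
  have hwca0 : W (c' * a) ≠ 0 := (Valuation.ne_zero_iff W).2 hca0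
  have h1 : log (MX W α α' (W ρ')) ≤ ord W (c' * a) := by
    have h2 := (log_le_log (mul_ne_zero hwca0 hMX0) one_ne_zero).2 hg1
    rw [log_mul hwca0 hMX0, log_one] at h2
    rw [ord]
    linarith
  have hr0 := h.ne_zero (by omega : 2 ≤ n) hα
  have hM0 : MX W α (α i0) (W (α j0 - α i0)) ≠ 0 := MX_ne_zero _ hr0
  have h3 := MX_min h (by omega : 2 ≤ n) hα α' (W ρ')
  rw [← log_le_log (mul_ne_zero (pow_ne_zero _ hM0) (pow_ne_zero _ hwρ0))
    (mul_ne_zero (pow_ne_zero _ hMX0) (pow_ne_zero _ hr0)),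
    log_mul (pow_ne_zero _ hM0) (pow_ne_zero _ hwρ0),
    log_mul (pow_ne_zero _ hMX0) (pow_ne_zero _ hr0), log_pow, log_pow, log_pow, log_pow] at h3
  have h4 : log (W ρ') = - ord W ρ' := by rw [ord]; ring
  rw [h4] at h3
  simp only [nsmul_eq_mul] at h3
  have hncast : ((n : ℕ) : ℤ) = 2 * g + 2 := by rw [hn]; push_cast; ring
  rw [hncast] at h3
  rw [ord_mul hca0 (pow_ne_zero _ hρ0), ord_pow, hncast]
  push_cast at h3
  have hg0 : (0 : ℤ) ≤ 2 * g + 1 := by positivity
  have h5 := mul_le_mul_of_nonneg_left h3 hg0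
  have h6 := mul_le_mul_of_nonneg_left h1 (show (0 : ℤ) ≤ 2 * (2 * g + 1) by positivity)
  linarith

/-- the upper bound: rational discs close to the least disc -/
theorem upper (g : ℕ) (hg : 1 ≤ g) (n : ℕ) (hn : n = 2 * g + 2) (f : K[X])
    (v : HeightOneSpectrum (𝓞 K)) (w : HeightOneSpectrum (𝓞 L))
    [w.asIdeal.LiesOver v.asIdeal] (a : L) (ha : a ≠ 0) (α : Fin n → L)
    (hα : Function.Injective α) (hfα : f.map (algebraMap K L) = C a * ∏ j, (X - C (α j)))
    (i0 j0 : Fin n) (h : IsMin (w.valuation L) α i0 j0) (b : K) (d : ℕ) (hd : d ≠ 0)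
    (hb : w.valuation L (algebraMap K L b - α i0) * w.valuation L (d : L) ≤
      w.valuation L (α j0 - α i0)) :
    ((Ideal.ramificationIdx' v.asIdeal w.asIdeal : ℕ) : ℤ) * discExp g f v ≤
      (Ideal.ramificationIdx' v.asIdeal w.asIdeal : ℕ) * (4 * g * ord (v.valuation K) (2 : K) +
        (2 * g + 1) * ((2 * g + 2) * ord (v.valuation K) (d : K) + 2 * ((g + 1) / 2 + 1))) +
      (2 * g + 1) * (2 * log (MX (w.valuation L) α (α i0) (w.valuation L (α j0 - α i0))) -
        (2 * g + 2) * log (w.valuation L (α j0 - α i0))) + SD (w.valuation L) α := by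
  have hfd : f.natDegree = n := by
    rw [← natDegree_map (algebraMap K L), hfα, natDegree_split _ ha]
  obtain ⟨π, hπ⟩ := v.valuation_exists_uniformizer K
  set e := Ideal.ramificationIdx' v.asIdeal w.asIdeal with he
  have he0 : e ≠ 0 :=
    Ideal.IsDedekindDomain.ramificationIdx'_ne_zero_of_liesOver w.asIdeal v.ne_bot
  have hvw : ∀ x : K, w.valuation L (algebraMap K L x) = v.valuation K x ^ e := fun x =>
    (HeightOneSpectrum.valuation_liesOver L v w x).symm
  set W := w.valuation L with hW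
  have hordK : ∀ x : K, ord W (algebraMap K L x) = e * ord (v.valuation K) x := by
    intro x
    rw [ord, hvw, log_pow, ord]
    simp
  have hdL : (d : L) ≠ 0 := by exact_mod_cast hd
  have hwd0 : W (d : L) ≠ 0 := (Valuation.ne_zero_iff W).2 hdL
  have hwd1 : W (d : L) ≤ 1 := natCast_le_one _ _
  have hr0 := h.ne_zero (by omega : 2 ≤ n) hα
  set ρ0 := W (α j0 - α i0) with hρ0
  set b' := algebraMap K L b with hb'
  set ρ1 := ρ0 / W (d : L) with hρ1
  have hρ10 : ρ1 ≠ 0 := div_ne_zero hr0 hwd0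
  have hle1 : ρ0 ≤ ρ1 := by
    rw [hρ1, le_div_iff₀ (zero_lt_iff.2 hwd0)]
    exact mul_le_of_le_one_right' hwd1
  have hbρ : W (b' - α i0) ≤ ρ1 := by
    rw [hρ1, le_div_iff₀ (zero_lt_iff.2 hwd0)]
    exact hb
  have hlogρ : log ρ1 = log ρ0 + e * ord (v.valuation K) (d : K) := by
    rw [hρ1, log_div hr0 hwd0, ← hordK, map_natCast (algebraMap K L), ord]
    ring
  set ts := log ρ1 with hts
  set m := (-ts) / e with hm
  have hepos : (0 : ℤ) < e := by exact_mod_cast Nat.pos_of_ne_zero he0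
  have hm1 : e * m ≤ -ts := by
    rw [hm]; exact Int.mul_ediv_self_le hepos.ne'
  have hm2 : -ts < e * (m + 1) := by
    rw [hm]
    have := Int.lt_ediv_add_one_mul_self (-ts) hepos
    linarith
  have hexp : exp ts = ρ1 := exp_log hρ10
  -- the two discs
  obtain ⟨c1, ε1, s1, hε1, hε1', hc1, hn1⟩ := model_at (v.valuation K) W e (Nat.pos_of_ne_zero he0)
    hvw π hπ g hg n hn f hfd a ha α hα hfα b m
  obtain ⟨c2, ε2, s2, hε2, hε2', hc2, hn2⟩ := model_at (v.valuation K) W e (Nat.pos_of_ne_zero he0)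
    hvw π hπ g hg n hn f hfd a ha α hα hfα b (m + 1)
  rw [← hb'] at hc1 hn1 hc2 hn2
  set M1 := MX W α b' (exp (-(e * m))) with hM1
  set M2 := MX W α b' (exp (-(e * (m + 1)))) with hM2
  set Ms := MX W α b' ρ1 with hMs
  set M0 := MX W α (α i0) ρ0 with hM0
  have hM10 : M1 ≠ 0 := MX_ne_zero _ exp_ne_zero
  have hM20 : M2 ≠ 0 := MX_ne_zero _ exp_ne_zero
  have hMs0 : Ms ≠ 0 := MX_ne_zero _ hρ10
  have hM00 : M0 ≠ 0 := MX_ne_zero _ hr0
  have hncast : ((n : ℕ) : ℤ) = 2 * g + 2 := by rw [hn]; push_cast; ring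
  have hφs : log Ms + (2 * g + 2) * log ρ0 ≤ log M0 + (2 * g + 2) * ts := by
    have h1 := MX_lip (w := W) (α := α) (α i0) hle1
    rw [← MX_congr (w := W) (α := α) hbρ, ← log_le_log (mul_ne_zero hMs0 (pow_ne_zero _ hr0))
      (mul_ne_zero hM00 (pow_ne_zero _ hρ10)), log_mul hMs0 (pow_ne_zero _ hr0),
      log_mul hM00 (pow_ne_zero _ hρ10), log_pow, log_pow, nsmul_eq_mul, nsmul_eq_mul, hncast] at h1
    exact h1
  have hl1 : log M1 + (2 * g + 2) * ts ≤ log Ms + (2 * g + 2) * (-(e * m)) := by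
    have h1 := MX_lip (w := W) (α := α) b' (r := ρ1) (r' := exp (-(e * m)))
      (by rw [← hexp, exp_le_exp]; linarith)
    rw [← log_le_log (mul_ne_zero hM10 (pow_ne_zero _ hρ10))
      (mul_ne_zero hMs0 (pow_ne_zero _ exp_ne_zero)), log_mul hM10 (pow_ne_zero _ hρ10),
      log_mul hMs0 (pow_ne_zero _ exp_ne_zero), log_pow, log_pow, log_exp, nsmul_eq_mul,
      nsmul_eq_mul, hncast] at h1
    exact h1
  have hl2 : log M2 ≤ log Ms := by
    have h1 := MX_mono (w := W) (α := α) b' (r := exp (-(e * (m + 1)))) (r' := ρ1)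
      (by rw [← hexp, exp_le_exp]; linarith)
    rwa [← log_le_log hM20 hMs0] at h1
  set φs := 2 * log Ms - (2 * g + 2) * ts with hφsd
  set φ1 := 2 * log M1 + (2 * g + 2) * (e * m) with hφ1d
  set φ2 := 2 * log M2 + (2 * g + 2) * (e * (m + 1)) with hφ2d
  have hfin : φs ≤ 2 * log M0 - (2 * g + 2) * log ρ0 +
      (2 * g + 2) * (e * ord (v.valuation K) (d : K)) := by
    rw [hφsd]
    have : (2 * (g : ℤ) + 2) * ts = (2 * g + 2) * log ρ0 +
        (2 * g + 2) * (e * ord (v.valuation K) (d : K)) := by rw [hlogρ]; ring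
    linarith
  have key := num g e m ts φs φ1 φ2 c1 c2 ε1 ε2 s1 s2 hepos
    (by rw [hφ1d, hφsd]; linarith) (by rw [hφ2d, hφsd]; linarith)
    (by rw [hφ1d, hφ2d, hc1, hc2]; ring) hε1 hε2 hε1' hε2'
  have hg0 : (0 : ℤ) ≤ 2 * g + 1 := by positivity
  rcases key with key | key
  · have h1 := mul_le_mul_of_nonneg_left (key.trans (add_le_add_left hfin _)) hg0
    refine hn1.trans ?_
    rw [hφ1d] at h1
    linarith
  · have h1 := mul_le_mul_of_nonneg_left (key.trans (add_le_add_left hfin _)) hg0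
    refine hn2.trans ?_
    rw [hφ2d] at h1
    linarith

end nf

end Pool.Agent.Lib.MP_ca2859_nt.SB
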