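import Mathlib
import Pool.Agent.Lib.MP_ca2859_nt.SB.Bounds
import Pool.Agent.Lib.MP_ca2859_nt.Above

/-!
# The sharp local bound
-/

set_option autoImplicit false
set_option linter.unusedSectionVars false

open Polynomial WithZero IsDedekindDomain NumberField

namespace Pool.Agent.Lib.MP_ca2859_nt.SB

section transfer
variable {E M : Type*} [Field E] [Field M] {φ : E →+* M} {w : Valuation E ℤᵐ⁰}
  {W : Valuation M ℤᵐ⁰} {e : ℕ} {n : ℕ} {α : Fin n → E}

theorem le_iff_map (he : e ≠ 0) (hφ : ∀ x, W (φ x) = w x ^ e) (x y : E) :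
    W (φ x) ≤ W (φ y) ↔ w x ≤ w y := by
  rw [hφ, hφ]
  exact pow_le_pow_iff_left₀ zero_le zero_le he

theorem cntD_map (he : e ≠ 0) (hφ : ∀ x, W (φ x) = w x ^ e) (a x : E) :
    cntD W (fun j => φ (α j)) (φ a) (W (φ x)) = cntD w α a (w x) := by
  unfold cntD
  congr 1
  apply Finset.filter_congr
  intro j _
  rw [← map_sub, le_iff_map he hφ]

theorem isMin_map (he : e ≠ 0) (hφ : ∀ x, W (φ x) = w x ^ e) {i0 j0 : Fin n}
    (h : IsMin w α i0 j0) : IsMin W (fun j => φ (α j)) i0 j0 := by
  refine ⟨?_, ?_⟩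
  · have h1 := h.1
    rw [← cntD_map (α := α) he hφ] at h1
    simp only [← map_sub]
    exact h1
  · intro i j hij
    simp only [← map_sub] at hij ⊢
    rw [cntD_map (α := α) he hφ] at hij
    rw [le_iff_map he hφ]
    exact h.2 i j hij

theorem log_MX_map (hφ : ∀ x, W (φ x) = w x ^ e) (a x : E) :
    log (MX W (fun j => φ (α j)) (φ a) (W (φ x))) = e * log (MX w α a (w x)) := by
  have h1 : MX W (fun j => φ (α j)) (φ a) (W (φ x)) = MX w α a (w x) ^ e := by
    unfold MX
    rw [← Finset.prod_pow]
    apply Finset.prod_congr rfl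
    intro j _
    rw [← map_sub, hφ, hφ]
    rcases le_total (w x) (w (α j - a)) with h | h
    · rw [max_eq_right h, max_eq_right (pow_le_pow_left₀ zero_le h e)]
    · rw [max_eq_left h, max_eq_left (pow_le_pow_left₀ zero_le h e)]
  rw [h1, log_pow, nsmul_eq_mul]

theorem ord_map (hφ : ∀ x, W (φ x) = w x ^ e) (x : E) : ord W (φ x) = e * ord w x := by
  rw [ord, hφ, log_pow, ord]
  simp

theorem SD_map (hφ : ∀ x, W (φ x) = w x ^ e) : SD W (fun j => φ (α j)) = e * SD w α := by
  unfold SD
  rw [Finset.mul_sum]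
  apply Finset.sum_congr rfl
  intro i _
  rw [Finset.mul_sum]
  apply Finset.sum_congr rfl
  intro j _
  rw [← map_sub, ord_map hφ]

end transfer

section stab
variable {K : Type} [Field K] [NumberField K] {L : Type} [Field L] [NumberField L] [Algebra K L]
  [IsGalois K L]

/-- the least disc is stable under the decomposition group -/
theorem isMin_stable (w : HeightOneSpectrum (𝓞 L)) {n : ℕ} (α : Fin n → L) {i0 j0 : Fin n}
    (h : IsMin (w.valuation L) α i0 j0) (π : (L ≃ₐ[K] L) → Fin n → Fin n)
    (hπs : ∀ σ, Function.Surjective (π σ)) (hπ : ∀ σ j, σ (α j) = α (π σ j)) (σ : L ≃ₐ[K] L)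
    (hσ : σ ∈ Dec (K := K) w) :
    w.valuation L (σ (α i0) - α i0) ≤ w.valuation L (α j0 - α i0) := by
  classical
  set ρ := w.valuation L (α j0 - α i0) with hρ
  have hinj : Function.Injective (π σ) := Finite.injective_iff_surjective.2 (hπs σ)
  have hcard : cntD (w.valuation L) α (α i0) ρ ≤
      (Finset.univ.filter fun k => w.valuation L (α k - σ (α i0)) ≤ ρ).card := by
    unfold cntD
    rw [← Finset.card_image_of_injective _ hinj]
    apply Finset.card_le_card
    intro k hk
    rw [Finset.mem_image] at hk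
    obtain ⟨j, hj, rfl⟩ := hk
    have hj' := (Finset.mem_filter.1 hj).2
    refine Finset.mem_filter.2 ⟨Finset.mem_univ _, ?_⟩
    rw [← hπ, ← map_sub, hσ]
    exact hj'
  obtain ⟨k, hk1, hk2⟩ := h.exists_common (p := fun k => w.valuation L (α k - σ (α i0)) ≤ ρ)
    (by have h9 := h.1; rw [← hρ] at h9; omega)
  have e1 : σ (α i0) - α i0 = (α k - α i0) - (α k - σ (α i0)) := by ring
  rw [e1]
  exact Valuation.map_sub_le _ hk2 hk1

end stab

section asm
variable {K E L M : Type} [Field K] [NumberField K] [Field E] [NumberField E] [Field L]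
  [NumberField L] [Field M] [NumberField M] [Algebra K E] [Algebra K L] [Algebra K M]
  [Algebra E M] [Algebra L M] [IsScalarTower K E M] [IsScalarTower K L M] [IsGalois K E]

theorem ram_mul (v : HeightOneSpectrum (𝓞 K)) (w : HeightOneSpectrum (𝓞 L))
    (W : HeightOneSpectrum (𝓞 M)) [w.asIdeal.LiesOver v.asIdeal] [W.asIdeal.LiesOver w.asIdeal]
    [W.asIdeal.LiesOver v.asIdeal] :
    (Ideal.ramificationIdx' v.asIdeal W.asIdeal : ℕ) =
      (Ideal.ramificationIdx' v.asIdeal w.asIdeal : ℕ) *
      (Ideal.ramificationIdx' w.asIdeal W.asIdeal : ℕ) := by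
  obtain ⟨ϖ, hϖ⟩ := v.valuation_exists_uniformizer K
  have h1 : W.valuation M (algebraMap K M ϖ) =
      v.valuation K ϖ ^ (Ideal.ramificationIdx' v.asIdeal W.asIdeal : ℕ) :=
    (HeightOneSpectrum.valuation_liesOver M v W ϖ).symm
  rw [IsScalarTower.algebraMap_apply K L M,
    ← HeightOneSpectrum.valuation_liesOver M w W, ← HeightOneSpectrum.valuation_liesOver L v w,
    ← pow_mul, hϖ, ← exp_nsmul, ← exp_nsmul, exp_inj] at h1
  simp only [smul_neg, nsmul_eq_mul, mul_one, neg_inj] at h1
  exact_mod_cast h1.symm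

/-- the local inequality, with all the fields given -/
theorem local_fields (g : ℕ) (hg : 1 ≤ g) (n : ℕ) (hn : n = 2 * g + 2) (f : K[X])
    (hf : IsHyperelliptic g f) (v : HeightOneSpectrum (𝓞 K)) (wE : HeightOneSpectrum (𝓞 E))
    (w : HeightOneSpectrum (𝓞 L)) (W : HeightOneSpectrum (𝓞 M))
    [wE.asIdeal.LiesOver v.asIdeal] [w.asIdeal.LiesOver v.asIdeal] [W.asIdeal.LiesOver wE.asIdeal]
    [W.asIdeal.LiesOver w.asIdeal] [W.asIdeal.LiesOver v.asIdeal]
    (a : E) (α : Fin n → E) (π : (E ≃ₐ[K] E) → Fin n → Fin n) (hR : RootData n f a α π)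
    (N : ℕ) (hN : N ≠ 0) (hcard : Nat.card (E ≃ₐ[K] E) ∣ N) :
    ((Ideal.ramificationIdx' v.asIdeal w.asIdeal : ℕ) : ℤ) * discExp g f v ≤
      (Ideal.ramificationIdx' v.asIdeal w.asIdeal : ℕ) *
        ((2 * g + 1) * (2 * ((g + 1) / 2 + 1)) + ((8 * g + 4) * ord (v.valuation K) (2 : K) +
        (2 * g + 1) * (2 * g + 2) * ord (v.valuation K) (N : K))) +
      discExp g (f.map (algebraMap K L)) w := by
  have ha := hR.a0
  have hα := hR.inj
  obtain ⟨i0, j0, hmin⟩ := exists_isMin (wE.valuation E) α (by omega : 1 ≤ n)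
  have hρ0 := hmin.ne_zero (by omega : 2 ≤ n) hα
  obtain ⟨b, d, hdvd, hd0, hb⟩ := exists_center (K := K) wE (α i0) _ hρ0
    (fun σ hσ => isMin_stable wE α hmin π hR.surj hR.act σ hσ)
  have hup := upper g hg n hn f v wE a ha α hα hR.split i0 j0 hmin b d hd0 hb
  -- the exponent of `d`
  have hdN : ord (v.valuation K) (d : K) ≤ ord (v.valuation K) (N : K) := by
    obtain ⟨q, hq⟩ := hdvd.trans hcard
    have hq0 : q ≠ 0 := by rintro rfl; exact hN (by rw [hq, mul_zero])
    have hdK : ((d : ℕ) : K) ≠ 0 := by exact_mod_cast hd0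
    have hqK : ((q : ℕ) : K) ≠ 0 := by exact_mod_cast hq0
    rw [hq, Nat.cast_mul, ord_mul hdK hqK]
    have := natCast_int_le (v.valuation K) q
    linarith
  -- the lower bound, over `M`
  set e1 := Ideal.ramificationIdx' v.asIdeal wE.asIdeal with he1
  set e2 := Ideal.ramificationIdx' v.asIdeal w.asIdeal with he2
  set e3 := Ideal.ramificationIdx' wE.asIdeal W.asIdeal with he3
  set e4 := Ideal.ramificationIdx' w.asIdeal W.asIdeal with he4
  have he30 : e3 ≠ 0 :=
    Ideal.IsDedekindDomain.ramificationIdx'_ne_zero_of_liesOver W.asIdeal wE.ne_bot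
  have he40 : e4 ≠ 0 :=
    Ideal.IsDedekindDomain.ramificationIdx'_ne_zero_of_liesOver W.asIdeal w.ne_bot
  have h1234 : e1 * e3 = e2 * e4 := by
    rw [he1, he3, ← ram_mul (K := K) (L := E) (M := M) v wE W, he2, he4,
      ← ram_mul (K := K) (L := L) (M := M) v w W]
  have hEM : ∀ x : E, W.valuation M (algebraMap E M x) = wE.valuation E x ^ e3 := fun x =>
    (HeightOneSpectrum.valuation_liesOver M wE W x).symm
  have hKL : ∀ x : K, w.valuation L (algebraMap K L x) = v.valuation K x ^ e2 := fun x =>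
    (HeightOneSpectrum.valuation_liesOver L v w x).symm
  have hfM : (f.map (algebraMap K L)).map (algebraMap L M) =
      C (algebraMap E M a) * ∏ j, (X - C (algebraMap E M (α j))) := by
    have h1 : (f.map (algebraMap K L)).map (algebraMap L M) =
        (f.map (algebraMap K E)).map (algebraMap E M) := by
      rw [Polynomial.map_map, Polynomial.map_map, ← IsScalarTower.algebraMap_eq,
        ← IsScalarTower.algebraMap_eq]
    rw [h1, hR.split, Polynomial.map_mul, Polynomial.map_C, Polynomial.map_prod]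
    congr 1
    apply Finset.prod_congr rfl
    intro j _
    rw [Polynomial.map_sub, Polynomial.map_X, Polynomial.map_C]
  have hlow := lower g hg n hn (f.map (algebraMap K L)) (isHyperelliptic_map g f hf) w W
    (algebraMap E M a) (by rw [Ne, map_eq_zero]; exact ha) (fun j => algebraMap E M (α j))
    ((algebraMap E M).injective.comp hα) hfM i0 j0 (isMin_map he30 hEM hmin)
  rw [← he4, ← map_sub, log_MX_map hEM, SD_map hEM] at hlow
  have hlogρ : log (W.valuation M (algebraMap E M (α j0 - α i0))) =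
      e3 * log (wE.valuation E (α j0 - α i0)) := by
    rw [hEM, log_pow, nsmul_eq_mul]
  rw [hlogρ] at hlow
  have ho2 : ord (w.valuation L) (2 : L) = e2 * ord (v.valuation K) (2 : K) := by
    have h1 : (2 : L) = algebraMap K L 2 := by rw [map_ofNat]
    rw [h1, ord, hKL, log_pow, ord]
    simp
  rw [ho2] at hlow
  set φ := 2 * log (MX (wE.valuation E) α (α i0) (wE.valuation E (α j0 - α i0))) -
    (2 * g + 2) * log (wE.valuation E (α j0 - α i0)) with hφ
  set A := (2 * g + 1) * φ + SD (wE.valuation E) α with hA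
  have hlow' : (e3 : ℤ) * A ≤ e4 * (discExp g (f.map (algebraMap K L)) w +
      (4 * g + 4) * (e2 * ord (v.valuation K) (2 : K))) := by
    refine le_trans (le_of_eq ?_) hlow
    rw [hA, hφ]
    ring
  have he3pos : (0 : ℤ) ≤ e3 := by positivity
  have he4pos : (0 : ℤ) < e4 := by exact_mod_cast Nat.pos_of_ne_zero he40
  have h12' : (e3 : ℤ) * e1 = e4 * e2 := by
    have := congrArg (fun t : ℕ => (t : ℤ)) h1234
    push_cast at this
    linarith
  refine le_of_mul_le_mul_left ?_ he4pos
  have hup' : (e1 : ℤ) * discExp g f v ≤ e1 * (4 * g * ord (v.valuation K) (2 : K) +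
      (2 * g + 1) * ((2 * g + 2) * ord (v.valuation K) (N : K) + 2 * ((g + 1) / 2 + 1))) + A := by
    have h1 : (e1 : ℤ) * (4 * g * ord (v.valuation K) (2 : K) +
      (2 * g + 1) * ((2 * g + 2) * ord (v.valuation K) (d : K) + 2 * ((g + 1) / 2 + 1))) ≤
      e1 * (4 * g * ord (v.valuation K) (2 : K) +
      (2 * g + 1) * ((2 * g + 2) * ord (v.valuation K) (N : K) + 2 * ((g + 1) / 2 + 1))) := by
      apply mul_le_mul_of_nonneg_left _ (by positivity)
      have h2 : (0 : ℤ) ≤ (2 * g + 1) * (2 * g + 2) := by positivity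
      have h3 := mul_le_mul_of_nonneg_left hdN h2
      linarith
    have h4 : ((e1 : ℕ) : ℤ) * discExp g f v ≤ e1 * (4 * g * ord (v.valuation K) (2 : K) +
      (2 * g + 1) * ((2 * g + 2) * ord (v.valuation K) (d : K) + 2 * ((g + 1) / 2 + 1))) + A := by
      rw [hA]
      linarith [hup]
    linarith
  have h5 := mul_le_mul_of_nonneg_left hup' he3pos
  calc (e4 : ℤ) * (e2 * discExp g f v) = e3 * (e1 * discExp g f v) := by
        rw [← mul_assoc, ← mul_assoc, h12']
    _ ≤ e3 * (e1 * (4 * g * ord (v.valuation K) (2 : K) +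
      (2 * g + 1) * ((2 * g + 2) * ord (v.valuation K) (N : K) + 2 * ((g + 1) / 2 + 1))) + A) := h5
    _ = e4 * e2 * (4 * g * ord (v.valuation K) (2 : K) +
      (2 * g + 1) * ((2 * g + 2) * ord (v.valuation K) (N : K) + 2 * ((g + 1) / 2 + 1))) +
        e3 * A := by rw [← h12']; ring
    _ ≤ e4 * e2 * (4 * g * ord (v.valuation K) (2 : K) +
      (2 * g + 1) * ((2 * g + 2) * ord (v.valuation K) (N : K) + 2 * ((g + 1) / 2 + 1))) +
        e4 * (discExp g (f.map (algebraMap K L)) w +
      (4 * g + 4) * (e2 * ord (v.valuation K) (2 : K))) := add_le_add_right hlow' _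
    _ = _ := by ring

end asm

section split
variable {K : Type} [Field K] [NumberField K] {L : Type} [Field L] [NumberField L] [Algebra K L]

/-- the order of the Galois group of a separable polynomial of degree `n` divides `n!` -/
theorem card_gal_dvd (f : K[X]) (hs : f.Separable) :
    Nat.card (f.SplittingField ≃ₐ[K] f.SplittingField) ∣ f.natDegree.factorial := by
  classical
  have : Fact ((f.map (algebraMap K f.SplittingField)).Splits) := ⟨SplittingField.splits f⟩
  have h1 := Subgroup.card_dvd_of_injective (Polynomial.Gal.galActionHom f f.SplittingField)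
    (Polynomial.Gal.galActionHom_injective f f.SplittingField)
  have h2 : Nat.card (Equiv.Perm (f.rootSet f.SplittingField)) = f.natDegree.factorial := by
    rw [Nat.card_perm]
    congr 1
    rw [Nat.card_eq_fintype_card]
    exact card_rootSet_eq_natDegree hs (SplittingField.splits f)
  rw [h2] at h1
  exact h1

/-- the sharp local inequality for polynomials of degree `2g+2` -/
theorem local_split (g : ℕ) (hg : 1 ≤ g) (f : K[X]) (hf : IsHyperelliptic g f)
    (hfd : f.natDegree = 2 * g + 2) (v : HeightOneSpectrum (𝓞 K)) (w : HeightOneSpectrum (𝓞 L))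
    [w.asIdeal.LiesOver v.asIdeal] :
    ((Ideal.ramificationIdx' v.asIdeal w.asIdeal : ℕ) : ℤ) * discExp g f v ≤
      (Ideal.ramificationIdx' v.asIdeal w.asIdeal : ℕ) *
        ((2 * g + 1) * (2 * ((g + 1) / 2 + 1)) + ((8 * g + 4) * ord (v.valuation K) (2 : K) +
        (2 * g + 1) * (2 * g + 2) * ord (v.valuation K) ((2 * g + 2).factorial : K))) +
      discExp g (f.map (algebraMap K L)) w := by
  let E := f.SplittingField
  let M := (f.map (algebraMap K L)).SplittingField
  have hEfin : FiniteDimensional K E := inferInstance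
  have hENF : NumberField E := NumberField.of_module_finite K E
  have hMfin : FiniteDimensional L M := inferInstance
  have hMNF : NumberField M := NumberField.of_module_finite L M
  have hEgal : IsGalois K E := IsGalois.of_separable_splitting_field hf.1
  have hKLM : IsScalarTower K L M := inferInstance
  have hsplM : (f.map (algebraMap K M)).Splits := by
    have h1 := SplittingField.splits (f.map (algebraMap K L))
    rwa [Polynomial.map_map, ← IsScalarTower.algebraMap_eq] at h1
  let φ : E →ₐ[K] M := SplittingField.lift f hsplM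
  let algEM : Algebra E M := φ.toRingHom.toAlgebra
  have hKEM : IsScalarTower K E M := IsScalarTower.of_algebraMap_eq fun x => (φ.commutes x).symm
  obtain ⟨a, α, π, hR⟩ := exists_rootData (L := E) (2 * g + 2) f hfd (by omega) hf.1
    (SplittingField.splits f)
  obtain ⟨W, hW⟩ := exists_place_above (K := L) (L := M) w
  obtain ⟨wE, hwE⟩ := exists_place_below (K := E) (L := M) W
  have hWv : W.asIdeal.LiesOver v.asIdeal := Ideal.LiesOver.trans W.asIdeal w.asIdeal v.asIdeal
  have hEv : wE.asIdeal.LiesOver v.asIdeal := Ideal.LiesOver.tower_bot W.asIdeal wE.asIdeal v.asIdeal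
  refine local_fields (E := E) (M := M) g hg (2 * g + 2) rfl f hf v wE w W a α π hR
    ((2 * g + 2).factorial) (Nat.factorial_ne_zero _) ?_
  have h1 := card_gal_dvd f hf.1
  rwa [hfd] at h1

end split

end Pool.Agent.Lib.MP_ca2859_nt.SB
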