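import Mathlib
import Pool.Agent.Lib.MP_ca2859_nt.SB.Asm
import Pool.Agent.Lib.MP_ca2859_nt.FinalD

/-!
# The sharp comparison of the minimal and the stable discriminant
-/

set_option autoImplicit false
set_option linter.unusedSectionVars false

open Polynomial WithZero IsDedekindDomain NumberField

namespace Pool.Agent.Lib.MP_ca2859_nt.SB

/-- the constant -/
def cs (g : ℕ) : ℕ := 2 ^ (8 * g + 4) * ((2 * g + 2).factorial) ^ ((2 * g + 1) * (2 * g + 2))

theorem cs_pos (g : ℕ) : 0 < cs g := by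
  unfold cs
  have := Nat.factorial_pos (2 * g + 2)
  positivity

section
variable {K : Type} [Field K] [NumberField K]

theorem ord_cs (g : ℕ) (v : HeightOneSpectrum (𝓞 K)) :
    ord (v.valuation K) ((cs g : ℕ) : K) = (8 * g + 4) * ord (v.valuation K) (2 : K) +
      (2 * g + 1) * (2 * g + 2) * ord (v.valuation K) ((2 * g + 2).factorial : K) := by
  have h1 : ((2 * g + 2).factorial : K) ≠ 0 := by
    rw [Nat.cast_ne_zero]; exact Nat.factorial_ne_zero _
  rw [cs, Nat.cast_mul, Nat.cast_pow, Nat.cast_pow,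
    ord_mul (pow_ne_zero _ (by norm_num)) (pow_ne_zero _ h1), ord_pow, ord_pow]
  push_cast
  ring

theorem map_flip {L : Type} [Field L] [Algebra K L] (g : ℕ) (t : K) (f : K[X]) :
    (flip g t f).map (algebraMap K L) = flip g (algebraMap K L t) (f.map (algebraMap K L)) := by
  rw [flip, flip, ← reflect_map, ← map_taylor]

/-- the sharp local inequality -/
theorem local_gen {L : Type} [Field L] [NumberField L] [Algebra K L] (g : ℕ) (hg : 1 ≤ g)
    (f : K[X]) (hf : IsHyperelliptic g f) (v : HeightOneSpectrum (𝓞 K))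
    (w : HeightOneSpectrum (𝓞 L)) [w.asIdeal.LiesOver v.asIdeal] :
    ((Ideal.ramificationIdx' v.asIdeal w.asIdeal : ℕ) : ℤ) * discExp g f v ≤
      (Ideal.ramificationIdx' v.asIdeal w.asIdeal : ℕ) *
        ((2 * g + 1) * (2 * ((g + 1) / 2 + 1)) + ord (v.valuation K) ((cs g : ℕ) : K)) +
      discExp g (f.map (algebraMap K L)) w := by
  obtain ⟨t, ht⟩ := exists_nonroot g f hf
  have hfd : f.natDegree ≤ 2 * g + 2 := by have := hf.2; omega
  have h1 := local_split (L := L) g hg (flip g t f) (flip_hyper g hg t f hf)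
    (flip_natDegree g t f hfd ht) v w
  rw [discExp_flip g t f hfd v, map_flip, discExp_flip g _ _ (by rw [natDegree_map]; exact hfd) w]
    at h1
  rw [ord_cs]
  exact h1

theorem local_real (g : ℕ) (hg : 1 ≤ g) (f : K[X]) (hf : IsHyperelliptic g f)
    (v : HeightOneSpectrum (𝓞 K)) :
    (discExp g f v : ℝ) ≤ ((2 * (2 * g + 1) * ((g + 1) / 2 + 1) : ℕ) : ℝ) + stableExp g f v +
      (cnt (cs g) v : ℝ) := by
  have h : (discExp g f v : ℝ) - ((2 * (2 * g + 1) * ((g + 1) / 2 + 1) : ℕ) : ℝ) -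
      (cnt (cs g) v : ℝ) ≤ stableExp g f v := by
    refine le_csInf ⟨_, self_mem_stableSet g f v⟩ ?_
    rintro r ⟨L, _, _, _, w, hw, rfl⟩
    have he : 0 < Ideal.ramificationIdx' v.asIdeal w.asIdeal :=
      Nat.pos_of_ne_zero
        (Ideal.IsDedekindDomain.ramificationIdx'_ne_zero_of_liesOver w.asIdeal v.ne_bot)
    have he' : (0 : ℝ) < (Ideal.ramificationIdx' v.asIdeal w.asIdeal : ℝ) := by exact_mod_cast he
    have h1 := local_gen g hg f hf v w
    rw [ord_eq_cnt (cs g) (cs_pos g)] at h1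
    have h2 : ((Ideal.ramificationIdx' v.asIdeal w.asIdeal : ℕ) : ℤ) * discExp g f v ≤
      (Ideal.ramificationIdx' v.asIdeal w.asIdeal : ℕ) *
        (((2 * (2 * g + 1) * ((g + 1) / 2 + 1) : ℕ) : ℤ) + (cnt (cs g) v : ℕ)) +
      discExp g (f.map (algebraMap K L)) w := by
      refine h1.trans (le_of_eq ?_)
      push_cast
      ring
    have h3 : ((Ideal.ramificationIdx' v.asIdeal w.asIdeal : ℕ) : ℝ) * discExp g f v ≤
      (Ideal.ramificationIdx' v.asIdeal w.asIdeal : ℕ) *
        (((2 * (2 * g + 1) * ((g + 1) / 2 + 1) : ℕ) : ℝ) + (cnt (cs g) v : ℕ)) +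
      discExp g (f.map (algebraMap K L)) w := by exact_mod_cast h2
    rw [le_div_iff₀ he']
    linarith
  linarith

/-- the global inequalities -/
theorem global_sharp (g : ℕ) (hg : 1 ≤ g) (f : K[X]) (hf : IsHyperelliptic g f) :
    stableDelta g f ≤ (DeltaC g f : ℝ) ∧
    (DeltaC g f : ℝ) ≤ (cs g : ℝ) ^ Module.finrank ℚ K *
      (MC g f : ℝ) ^ (2 * (2 * g + 1) * ((g + 1) / 2 + 1)) * stableDelta g f := by
  classical
  set S := (finite_bad g f hf).toFinset with hS
  have hmem : ∀ v : HeightOneSpectrum (𝓞 K), discExp g f v ≠ 0 → v ∈ S := by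
    intro v hv; rw [hS, Set.Finite.mem_toFinset]; exact hv
  have hD : (DeltaC g f : ℝ) =
      ∏ v ∈ S, (Ideal.absNorm v.asIdeal : ℝ) ^ (discExp g f v : ℝ) := by
    rw [DeltaC, finprod_eq_prod_of_mulSupport_subset (s := S)]
    · push_cast
      exact Finset.prod_congr rfl (fun v _ => (Real.rpow_natCast _ _).symm)
    · intro v hv
      apply hmem
      intro h0
      exact hv (by simp [h0])
  have hM : (MC g f : ℝ) = ∏ v ∈ S, (Ideal.absNorm v.asIdeal : ℝ) := by
    rw [MC, finprod_eq_prod_of_mulSupport_subset (s := S)]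
    · push_cast
      refine Finset.prod_congr rfl (fun v hv => ?_)
      rw [if_neg]
      rw [hS, Set.Finite.mem_toFinset] at hv
      exact hv
    · intro v hv
      apply hmem
      intro h0
      exact hv (by simp [h0])
  have hst : stableDelta g f =
      ∏ v ∈ S, (Ideal.absNorm v.asIdeal : ℝ) ^ stableExp g f v := by
    rw [stableDelta, finprod_eq_prod_of_mulSupport_subset]
    intro v hv
    apply hmem
    intro h0
    apply hv
    have h1 := stableExp_le g f v
    have h2 := stableExp_nonneg g f v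
    rw [h0, Nat.cast_zero] at h1
    have h3 : stableExp g f v = 0 := le_antisymm h1 h2
    simp [h3]
  have hN : ∀ v : HeightOneSpectrum (𝓞 K), (1 : ℝ) ≤ (Ideal.absNorm v.asIdeal : ℝ) :=
    fun v => by exact_mod_cast one_le_absNorm v
  refine ⟨?_, ?_⟩
  · rw [hst, hD]
    apply Finset.prod_le_prod
    · intro v _; positivity
    · intro v _
      exact Real.rpow_le_rpow_of_exponent_le (hN v) (stableExp_le g f v)
  have hc : (∏ v ∈ S, (Ideal.absNorm v.asIdeal : ℝ) ^ (cnt (cs g) v : ℝ)) ≤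
      (cs g : ℝ) ^ Module.finrank ℚ K := by
    have := prod_cnt_le (K := K) (cs g) (cs_pos g) S
    have h2 : ((∏ v ∈ S, Ideal.absNorm v.asIdeal ^ cnt (cs g) v : ℕ) : ℝ) ≤
        ((cs g ^ Module.finrank ℚ K : ℕ) : ℝ) := by exact_mod_cast this
    push_cast at h2
    refine le_trans (le_of_eq ?_) h2
    exact Finset.prod_congr rfl (fun v _ => Real.rpow_natCast _ _)
  calc (DeltaC g f : ℝ)
      = ∏ v ∈ S, (Ideal.absNorm v.asIdeal : ℝ) ^ (discExp g f v : ℝ) := hD
    _ ≤ ∏ v ∈ S, ((Ideal.absNorm v.asIdeal : ℝ) ^ (cnt (cs g) v : ℝ) *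
          (Ideal.absNorm v.asIdeal : ℝ) ^ (2 * (2 * g + 1) * ((g + 1) / 2 + 1)) *
          (Ideal.absNorm v.asIdeal : ℝ) ^ stableExp g f v) := by
        apply Finset.prod_le_prod
        · intro v _; positivity
        · intro v _
          have hpos : (0 : ℝ) < (Ideal.absNorm v.asIdeal : ℝ) := lt_of_lt_of_le one_pos (hN v)
          refine (Real.rpow_le_rpow_of_exponent_le (hN v) (local_real g hg f hf v)).trans
            (le_of_eq ?_)
          rw [Real.rpow_add hpos, Real.rpow_add hpos, Real.rpow_natCast]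
          ring
    _ = (∏ v ∈ S, (Ideal.absNorm v.asIdeal : ℝ) ^ (cnt (cs g) v : ℝ)) *
          (MC g f : ℝ) ^ (2 * (2 * g + 1) * ((g + 1) / 2 + 1)) * stableDelta g f := by
        rw [Finset.prod_mul_distrib, Finset.prod_mul_distrib, Finset.prod_pow, hM, hst]
    _ ≤ _ := by
        apply mul_le_mul_of_nonneg_right
        · apply mul_le_mul_of_nonneg_right hc
          positivity
        · rw [hst]
          exact Finset.prod_nonneg (fun v _ => by positivity)

end

end Pool.Agent.Lib.MP_ca2859_nt.SB
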